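import Mathlib

/-! Choice of the parameter of a perturbation along the leaves. -/

open Set

noncomputable section

namespace Pool.Agent.Helper16.OL

/-- The leaf maps: the coordinates `i ∈ L` are mapped by continuous monotone functions of the line
fixing `0`, the other coordinates are translated by amounts which depend only on the previous
coordinates. -/
structure LeafMap {k : ℕ} (L : Set (Fin k))
    (τ : EuclideanSpace ℝ (Fin k) → EuclideanSpace ℝ (Fin k)) : Prop where
  line : ∀ i ∈ L, ∃ g : ℝ → ℝ, Continuous g ∧ Monotone g ∧ g 0 = 0 ∧ ∀ t, τ t i = g (t i)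
  circ : ∀ i ∉ L, ∀ t t' : EuclideanSpace ℝ (Fin k), (∀ j < i, t j = t' j) →
    τ t i - t i = τ t' i - t' i

/-- one coordinate -/
def W (g : ℕ → ℝ → ℝ) (σ : ℕ → ℝ) (a : ℝ) : ℕ → ℝ
  | 0 => 0
  | j + 1 => a + g j (W g σ a j) - σ j

lemma W_cont {g : ℕ → ℝ → ℝ} {σ : ℕ → ℝ} (hg : ∀ j, Continuous (g j)) (n : ℕ) :
    Continuous (fun a => W g σ a n) := by
  induction n with
  | zero => exact continuous_const
  | succ j ih => exact (continuous_id.add ((hg j).comp ih)).sub continuous_const

lemma W_zero {g : ℕ → ℝ → ℝ} {σ : ℕ → ℝ} {κ : ℝ} (hg : ∀ j, Continuous (g j))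
    (hm : ∀ j, Monotone (g j)) (h0 : ∀ j, g j 0 = 0) (hσ : ∀ j, |σ j| ≤ κ) (hκ : 0 ≤ κ) (n : ℕ) :
    ∃ a, |a| ≤ κ ∧ W g σ a n = 0 := by
  have h1 : ∀ j, 0 ≤ W g σ κ j := by
    intro j
    induction j with
    | zero => exact le_rfl
    | succ j ih =>
      have h2 := hm j ih
      rw [h0] at h2
      have h3 := (abs_le.1 (hσ j)).2
      show 0 ≤ κ + g j (W g σ κ j) - σ j
      linarith
  have h1' : ∀ j, W g σ (-κ) j ≤ 0 := by
    intro j
    induction j with
    | zero => exact le_rfl
    | succ j ih =>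
      have h2 := hm j ih
      rw [h0] at h2
      have h3 := (abs_le.1 (hσ j)).1
      show -κ + g j (W g σ (-κ) j) - σ j ≤ 0
      linarith
  have h2 : (0:ℝ) ∈ (fun a => W g σ a n) '' Icc (-κ) κ :=
    intermediate_value_Icc (by linarith) (W_cont hg n).continuousOn ⟨h1' n, h1 n⟩
  obtain ⟨a, ha, ha0⟩ := h2
  exact ⟨a, abs_le.2 ha, ha0⟩

variable {k : ℕ}

/-- the orbit along the leaf -/
def orbU (τ : ℕ → EuclideanSpace ℝ (Fin k) → EuclideanSpace ℝ (Fin k))
    (S : ℕ → EuclideanSpace ℝ (Fin k)) (c : EuclideanSpace ℝ (Fin k)) :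
    ℕ → EuclideanSpace ℝ (Fin k)
  | 0 => 0
  | j + 1 => c + τ j (orbU τ S c j) - S j

variable {τ : ℕ → EuclideanSpace ℝ (Fin k) → EuclideanSpace ℝ (Fin k)}
    {S : ℕ → EuclideanSpace ℝ (Fin k)} {L : Set (Fin k)}

lemma orbU_succ (c : EuclideanSpace ℝ (Fin k)) (j : ℕ) (i : Fin k) :
    orbU τ S c (j + 1) i = c i + τ j (orbU τ S c j) i - S j i := rfl

lemma orbU_dep (hτ : ∀ j, LeafMap L (τ j)) {c c' : EuclideanSpace ℝ (Fin k)} {i : Fin k}
    (h : ∀ l ≤ i, c l = c' l) (j : ℕ) : ∀ l ≤ i, orbU τ S c j l = orbU τ S c' j l := by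
  induction j with
  | zero => intro l _; rfl
  | succ j ih =>
    intro l hl
    rw [orbU_succ, orbU_succ, h l hl]
    by_cases hL : l ∈ L
    · obtain ⟨g, _, _, _, hg⟩ := (hτ j).line l hL
      rw [hg, hg, ih l hl]
    · have h1 := (hτ j).circ l hL (orbU τ S c j) (orbU τ S c' j)
        (fun p hp => ih p (hp.le.trans hl))
      rw [ih l hl] at h1
      linarith

lemma orbU_line (hτ : ∀ j, LeafMap L (τ j)) {i : Fin k} {g : ℕ → ℝ → ℝ}
    (hg : ∀ j t, τ j t i = g j (t i)) (c : EuclideanSpace ℝ (Fin k)) (j : ℕ) :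
    orbU τ S c j i = W g (fun j => S j i) (c i) j := by
  induction j with
  | zero => rfl
  | succ j ih =>
    rw [orbU_succ, hg, ih]
    rfl

lemma orbU_circ (hτ : ∀ j, LeafMap L (τ j)) {i : Fin k} (hi : i ∉ L)
    {c c' : EuclideanSpace ℝ (Fin k)} (h : ∀ l < i, c l = c' l) (j : ℕ) :
    orbU τ S c' j i = orbU τ S c j i + j * (c' i - c i) := by
  induction j with
  | zero => simp [orbU]
  | succ j ih =>
    have h1 := (hτ j).circ i hi (orbU τ S c j) (orbU τ S c' j)
        (fun p hp => orbU_dep hτ (i := p) (fun l hl => h l (hl.trans_lt hp)) j p le_rfl)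
    rw [orbU_succ, orbU_succ]
    push_cast
    linarith

/-- replace a coordinate -/
def upd (c : EuclideanSpace ℝ (Fin k)) (i : Fin k) (a : ℝ) : EuclideanSpace ℝ (Fin k) :=
  WithLp.toLp 2 (Function.update (WithLp.ofLp c) i a)

lemma upd_same (c : EuclideanSpace ℝ (Fin k)) (i : Fin k) (a : ℝ) : upd c i a i = a := by
  simp [upd]

lemma upd_ne (c : EuclideanSpace ℝ (Fin k)) {i l : Fin k} (h : l ≠ i) (a : ℝ) :
    upd c i a l = c l := by
  simp [upd, h]

/-- The choice of the parameter. -/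
theorem exists_c (hτ : ∀ j, LeafMap L (τ j)) {κ : ℝ} (hκ : 0 < κ)
    (hS : ∀ j, ∀ i ∈ L, |S j i| ≤ κ) {n : ℕ} (hn : 1 ≤ n * κ) :
    ∃ c : EuclideanSpace ℝ (Fin k), (∀ i, |c i| ≤ κ) ∧ (∀ i ∈ L, orbU τ S c n i = 0) ∧
      ∀ i ∉ L, ∃ l : ℤ, orbU τ S c n i = l := by
  have key : ∀ m : ℕ, ∃ c : EuclideanSpace ℝ (Fin k), (∀ i, |c i| ≤ κ) ∧
      (∀ i : Fin k, (i : ℕ) < m → i ∈ L → orbU τ S c n i = 0) ∧
      ∀ i : Fin k, (i : ℕ) < m → i ∉ L → ∃ l : ℤ, orbU τ S c n i = l := by
    intro m
    induction m with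
    | zero =>
      refine ⟨0, fun i => ?_, fun i hi => absurd hi (Nat.not_lt_zero _),
        fun i hi => absurd hi (Nat.not_lt_zero _)⟩
      simpa using hκ.le
    | succ m ih =>
      obtain ⟨c, hc, h1, h2⟩ := ih
      by_cases hmk : m < k
      · obtain ⟨i, hi⟩ : ∃ i : Fin k, (i : ℕ) = m := ⟨⟨m, hmk⟩, rfl⟩
        -- it suffices to find the new coordinate
        suffices h3 : ∃ a : ℝ, |a| ≤ κ ∧ (i ∈ L → orbU τ S (upd c i a) n i = 0) ∧
            (i ∉ L → ∃ l : ℤ, orbU τ S (upd c i a) n i = l) by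
          obtain ⟨a, ha, h4, h5⟩ := h3
          have h6 : ∀ l : Fin k, l < i → orbU τ S (upd c i a) n l = orbU τ S c n l := by
            intro l hl
            exact orbU_dep hτ (i := l)
              (fun p hp => upd_ne c (ne_of_lt (hp.trans_lt hl)) a) n l le_rfl
          refine ⟨upd c i a, fun l => ?_, fun l hl hL => ?_, fun l hl hL => ?_⟩
          · by_cases hli : l = i
            · rw [hli, upd_same]; exact ha
            · rw [upd_ne c hli]; exact hc l
          · by_cases hli : l = i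
            · rw [hli] at hL ⊢; exact h4 hL
            · have h7 : l < i := by
                rw [Fin.lt_def, hi]
                have : (l : ℕ) ≠ i := fun h => hli (Fin.ext h)
                omega
              rw [h6 l h7]
              exact h1 l (by rw [← hi]; exact h7) hL
          · by_cases hli : l = i
            · rw [hli] at hL ⊢; exact h5 hL
            · have h7 : l < i := by
                rw [Fin.lt_def, hi]
                have : (l : ℕ) ≠ i := fun h => hli (Fin.ext h)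
                omega
              rw [h6 l h7]
              exact h2 l (by rw [← hi]; exact h7) hL
        by_cases hL : i ∈ L
        · have h3 : ∀ j, ∃ g : ℝ → ℝ, Continuous g ∧ Monotone g ∧ g 0 = 0 ∧
              ∀ t, τ j t i = g (t i) := fun j => (hτ j).line i hL
          choose g hg1 hg2 hg3 hg4 using h3
          obtain ⟨a, ha, ha0⟩ := W_zero (σ := fun j => S j i) hg1 hg2 hg3
            (fun j => hS j i hL) hκ.le n
          refine ⟨a, ha, fun _ => ?_, fun h => absurd hL h⟩
          rw [orbU_line hτ hg4, upd_same]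
          exact ha0
        · have hn0 : (0:ℝ) < n := by
            by_contra h
            have h4 : (n:ℝ) ≤ 0 := not_lt.1 h
            nlinarith
          obtain ⟨D, hD⟩ : ∃ D, D = orbU τ S (upd c i 0) n i := ⟨_, rfl⟩
          refine ⟨(round D - D) / n, ?_, fun h => absurd h hL, fun _ => ⟨round D, ?_⟩⟩
          · rw [abs_div, Nat.abs_cast, div_le_iff₀ hn0, abs_sub_comm]
            have h4 := abs_sub_round D
            nlinarith
          · rw [orbU_circ hτ hL (c := upd c i 0) (c' := upd c i ((round D - D) / n)) (fun l hl => by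
              rw [upd_ne c (ne_of_lt hl), upd_ne c (ne_of_lt hl)]), upd_same, upd_same, ← hD]
            field_simp
            ring
      · refine ⟨c, hc, fun i _ hL => h1 i (by have := i.2; omega) hL,
          fun i _ hL => h2 i (by have := i.2; omega) hL⟩
  obtain ⟨c, hc, h1, h2⟩ := key k
  exact ⟨c, hc, fun i hL => h1 i i.2 hL, fun i hL => h2 i i.2 hL⟩

end Pool.Agent.Helper16.OL
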