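import Mathlib
import Pool.Agent.R774.Cl5
import Pool.Agent.Helper16.OL.Pure

/-! The `C^r` closing lemma for diffeomorphisms which are hyperbolic transversally to the orbits of an
action of `ℝᵏ` and map the orbits to orbits by monotone or triangular maps. -/

open scoped Topology ContDiff Manifold
open Set Metric Filter

noncomputable section

set_option linter.unusedSectionVars false

namespace Pool.Agent.Helper16.OL

open Pool.Agent.H718R2.G Pool.Agent.R774.Cl Pool.Agent.R774.ClStmt Pool.Agent.W564.SC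

universe u

variable {k n m : ℕ} {N : Type u} [TopologicalSpace N] [ChartedSpace (V n) N]

/-- `K` is a closed set, invariant under `F`; `Φ` is a smooth action of `ℝᵏ` which is locally free on
`K`; for the points `y` of a neighbourhood of `K` the coordinates `i ∉ L` act as circles (the action
factors through `ℝ^L × 𝕋^Lᶜ`) and `F` maps the orbit of `y` to the orbit of `F y` by a leaf map; the
quadratic form `Q = quad e B` (of any signature) does not change in the direction of the orbits of `Φ`,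
and it increases strictly under `DF` on all vectors which are not tangent to the orbits, at the points
of `K`. -/
structure HypLeaves (L : Set (Fin k)) (F : N → N) (Φ : V k → N → N) (K : Set N) (e : N → V m)
    (B : N → V m →L[ℝ] V m →L[ℝ] ℝ) : Prop where
  action : IsAction k n N Φ
  closed : IsClosed K
  inv : ∀ x ∈ K, F x ∈ K
  leaves : ∃ O : Set N, IsOpen O ∧ K ⊆ O ∧
    (∀ y ∈ O, ∀ v : V k, (∀ i ∈ L, v i = 0) → (∀ i ∉ L, ∃ l : ℤ, v i = l) → Φ v y = y) ∧
    ∀ y ∈ O, ∃ τ : V k → V k, LeafMap L τ ∧ ∀ t, F (Φ t y) = Φ (τ t) (F y)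
  free : ∀ x ∈ K, ∀ s, orb (n := n) Φ x s = 0 → s = 0
  smooth : ContMDiff (𝓡 n) (𝓡 m) 1 e
  cont : Continuous B
  basic : ∀ x ∈ K, ∀ (v : V n) (s : V k), quad e B x (v + orb Φ x s) = quad e B x v
  incr : ∀ x ∈ K, ∀ v : V n, (∀ s, v ≠ orb Φ x s) →
    quad e B x v < quad e B (F x) (dr (V n) (V n) F x v)

/-- repeating a closed pseudo-orbit -/
lemma long {F : N → N} {K : Set N} {z : N} (hz : ChainRecOn F K z) (W : Set (N × N)) (hW : IsOpen W)
    (hd : ∀ x, (x, x) ∈ W) (q : ℕ) : ∃ (m : ℕ) (x : ℕ → N), 1 ≤ m ∧ q ≤ m ∧ x 0 = z ∧ x m = z ∧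
      (∀ i ≤ m, x i ∈ K) ∧ ∀ i < m, (F (x i), x (i + 1)) ∈ W := by
  obtain ⟨m, x, hm, h0, h1, h2, h3⟩ := hz W hW hd
  refine ⟨m * (q + 1), fun j => x (j % m), Nat.mul_pos hm (Nat.succ_pos _), ?_, ?_, ?_, ?_, ?_⟩
  · nlinarith
  · simpa using h0
  · simpa using h0
  · intro i _
    exact h2 _ (Nat.mod_lt _ hm).le
  · intro i _
    have h4 : i % m < m := Nat.mod_lt _ hm
    have h5 := h3 _ h4
    have h6 : x ((i + 1) % m) = x (i % m + 1) := by
      rcases Nat.lt_or_ge (i % m + 1) m with h7 | h7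
      · rw [Nat.add_mod, Nat.mod_eq_of_lt (a := i % m + 1 % m)]
        · congr 2
          exact Nat.mod_eq_of_lt (by omega)
        · have : 1 % m = 1 := Nat.mod_eq_of_lt (by omega)
          omega
      · have h8 : i % m + 1 = m := by omega
        have h9 : (i + 1) % m = 0 := by
          rw [← Nat.mod_add_mod, h8, Nat.mod_self]
        rw [h9, h8, h0, h1]
    show (F (x (i % m)), x ((i + 1) % m)) ∈ W
    rw [h6]
    exact h5

lemma norm_le_sum (c : V k) {κ : ℝ} (h : ∀ i, |c i| ≤ κ) : ‖c‖ ≤ k * κ := by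
  have h1 : ‖c‖ ≤ ∑ i, |c i| := by
    have h2 : c = ∑ i, (c i) • EuclideanSpace.single i (1:ℝ) := by
      ext j
      simp [Finset.sum_apply, Pi.single_apply]
    calc ‖c‖ = ‖∑ i, (c i) • EuclideanSpace.single i (1:ℝ)‖ := by rw [← h2]
      _ ≤ ∑ i, ‖(c i) • EuclideanSpace.single i (1:ℝ)‖ := norm_sum_le _ _
      _ = ∑ i, |c i| := by
        refine Finset.sum_congr rfl fun i _ => ?_
        rw [norm_smul, PiLp.norm_single, norm_one, mul_one, Real.norm_eq_abs]
  refine h1.trans ((Finset.sum_le_sum fun i _ => h i).trans ?_)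
  simp

variable [IsManifold (𝓡 n) ∞ N]

theorem closable [T2Space N] [CompactSpace N] (r : ℕ∞) (hr : 1 ≤ r) (F : DiffM n N r)
    {L : Set (Fin k)} {Φ : V k → N → N} {K : Set N} {e : N → V m}
    {B : N → V m →L[ℝ] V m →L[ℝ] ℝ}
    (h : HypLeaves (n := n) L F Φ K e B) {z : N} (hz : ChainRecOn F K z)
    (U : Set (DiffM n N r)) (hU : IsOpen[strongTop n N r] U) (hFU : F ∈ U) :
    ∃ G ∈ U, IsPer G z := by
  have hzK : z ∈ K := by
    obtain ⟨m, x, _, h0, _, h2, _⟩ := hz univ isOpen_univ (fun _ => trivial)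
    rw [← h0]
    exact h2 0 (Nat.zero_le _)
  obtain ⟨χ, hχ⟩ := Pool.Agent.W699.SC.gc n N z
  obtain ⟨k', _, κ, hκ, hCL⟩ := t_CL n N r hr (V k) (famD h.action r F)
    (famD_isFam h.action r F) χ z hχ U hU (by rw [famD_zero]; exact hFU)
  obtain ⟨O, hO, hKO, hOper, hOleaf⟩ := h.leaves
  obtain ⟨κ₁, hκ₁, hκκ⟩ : ∃ κ₁ : ℝ, 0 < κ₁ ∧ k * κ₁ < κ := by
    refine ⟨κ / (k + 1), by positivity, ?_⟩
    rw [mul_div_assoc', div_lt_iff₀ (by positivity)]
    nlinarith
  have hΦ : Act (E := V n) Φ :=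
    ⟨h.action.smooth.of_le (by exact_mod_cast le_top), h.action.zero⟩
  have hF1 : ContMDiff (𝓡 n) (𝓡 n) 1 F :=
    F.contMDiff_toFun.of_le (by exact_mod_cast hr)
  obtain ⟨M, d, hd1, hd2, -⟩ := exists_embedding_euclidean_of_compact (I := 𝓡 n) (M := N)
  have hW' : {y : N | y ∈ χ.source ∧ ‖χ y‖ < κ} ∈ 𝓝 z := by
    have h5 : χ.source ∈ 𝓝 z := χ.open_source.mem_nhds hχ.src
    have h6 : ContinuousAt (fun y => ‖χ y‖) z := (χ.continuousAt hχ.src).norm
    have h7 : ∀ᶠ y in 𝓝 z, ‖χ y‖ < κ := by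
      have h8 : ‖χ z‖ < κ := by rw [hχ.zero, norm_zero]; exact hκ
      exact h6.eventually_lt_const h8
    filter_upwards [h5, h7] with y hy1 hy2
    exact ⟨hy1, hy2⟩
  obtain ⟨δ, hδ, hcl⟩ := closing (E := V n) (T := V k) hΦ hF1 h.cont h.smooth
    (d := d) hd1.continuous hd2.injective h.closed h.inv h.free h.basic h.incr
    (Q := fun x y s => y ∈ O ∧ ‖s‖ < κ₁ ∧ (x = z → y ∈ {y : N | y ∈ χ.source ∧ ‖χ y‖ < κ}))
    (by
      intro x hx
      have e1 : ∀ᶠ q : N × N × V k in 𝓝 (x, x, (0 : V k)), q.2.1 ∈ O := by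
        have h1 : Continuous (fun q : N × N × V k => q.2.1) := continuous_fst.comp continuous_snd
        exact (h1.tendsto (x, x, (0 : V k))).eventually (hO.mem_nhds (hKO hx))
      have e2 : ∀ᶠ q : N × N × V k in 𝓝 (x, x, (0 : V k)), ‖q.2.2‖ < κ₁ := by
        have h1 : Continuous (fun q : N × N × V k => ‖q.2.2‖) :=
          (continuous_snd.comp continuous_snd).norm
        have h2 := h1.tendsto (x, x, (0 : V k))
        simp only [norm_zero] at h2
        exact h2.eventually (gt_mem_nhds hκ₁)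
      have e3 : ∀ᶠ q : N × N × V k in 𝓝 (x, x, (0 : V k)),
          (q.1 = z → q.2.1 ∈ {y : N | y ∈ χ.source ∧ ‖χ y‖ < κ}) := by
        by_cases hxz : x = z
        · have h1 : Continuous (fun q : N × N × V k => q.2.1) :=
            continuous_fst.comp continuous_snd
          rw [← hxz] at hW'
          filter_upwards [(h1.tendsto (x, x, (0 : V k))).eventually hW'] with q hq _
          exact hq
        · have h1 : Continuous (fun q : N × N × V k => q.1) := continuous_fst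
          filter_upwards [(h1.tendsto (x, x, (0 : V k))).eventually
            (isOpen_ne.mem_nhds hxz)] with q hq h2
          exact absurd h2 hq
      filter_upwards [e1, e2, e3] with q h1 h2 h3
      exact ⟨h1, h2, h3⟩)
  obtain ⟨q₀, hq₀⟩ := exists_nat_gt (1 / κ₁)
  obtain ⟨m', x, hm', hqm, hx0, hxm, hxK, hxW⟩ := long hz {q | ‖d q.2 - d q.1‖ < δ}
    (isOpen_lt ((hd1.continuous.comp continuous_snd).sub
      (hd1.continuous.comp continuous_fst)).norm continuous_const)
    (fun x => by simpa using hδ) q₀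
  have : NeZero m' := ⟨by omega⟩
  have hmκ : 1 ≤ (m' : ℝ) * κ₁ := by
    have h1 : (q₀ : ℝ) ≤ m' := by exact_mod_cast hqm
    have h2 : 1 / κ₁ < m' := hq₀.trans_le h1
    rw [div_lt_iff₀ hκ₁] at h2
    exact h2.le
  obtain ⟨y, s, hys, hQ⟩ := hcl m' (fun i => x i.val)
    (fun i => hxK _ (ZMod.val_lt i).le) (fun i => by
      have h1 := hxW i.val (ZMod.val_lt i)
      rw [wrap (hxm.trans hx0.symm) i]
      exact h1)
  have hyO : ∀ i, y i ∈ O := fun i => (hQ i).1
  have hsκ : ∀ i, ‖s i‖ < κ₁ := fun i => (hQ i).2.1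
  have hy0 : y 0 ∈ χ.source ∧ ‖χ (y 0)‖ < κ := (hQ 0).2.2 (by rw [ZMod.val_zero, hx0])
  have hleaf : ∀ j : ℕ, ∃ τ : V k → V k, LeafMap L τ ∧
      ∀ t, F (Φ t (y (j : ZMod m'))) = Φ (τ t) (F (y (j : ZMod m'))) := fun j => hOleaf _ (hyO _)
  choose τ hτ hτF using hleaf
  obtain ⟨c, hc, hc1, hc2⟩ := exists_c hτ hκ₁ (S := fun j => s (j : ZMod m')) (n := m')
    (fun j i _ => by
      have h1 := PiLp.norm_apply_le (s (j : ZMod m')) i
      rw [Real.norm_eq_abs] at h1
      exact h1.trans (hsκ _).le) hmκ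
  have hcκ : ‖c‖ < κ := (norm_le_sum c hc).trans_lt hκκ
  have hstep : ∀ i, F (y i) = Φ (-(s i)) (y (i + 1)) := by
    intro i
    rw [← hys i, ← h.action.add, neg_add_cancel, h.action.zero]
  have hit : ∀ j : ℕ, (famD h.action r F c)^[j] (y 0) =
      Φ (orbU τ (fun j => s (j : ZMod m')) c j) (y (j : ZMod m')) := by
    intro j
    induction j with
    | zero => simp [orbU, h.action.zero]
    | succ j ih =>
      rw [Function.iterate_succ_apply', ih, famD_apply, hτF, hstep,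
        ← h.action.add, ← h.action.add]
      have e1 : ((j + 1 : ℕ) : ZMod m') = (j : ZMod m') + 1 := by push_cast; rfl
      rw [e1]
      congr 1
  have hper : (famD h.action r F c)^[m'] (y 0) = y 0 := by
    rw [hit, ZMod.natCast_self]
    exact hOper _ (hyO 0) _ hc1 hc2
  -- the minimal period
  have hpp : Function.IsPeriodicPt (famD h.action r F c) m' (y 0) := hper
  obtain ⟨p, hp⟩ : ∃ p, p = Function.minimalPeriod (famD h.action r F c) (y 0) := ⟨_, rfl⟩
  have hp0 : 0 < p := by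
    rw [hp]
    exact hpp.minimalPeriod_pos (by omega)
  have hpfix : (famD h.action r F c)^[p] (y 0) = y 0 := by
    rw [hp]
    exact Function.iterate_minimalPeriod
  have hpne : ∀ i, 0 < i → i < p → (famD h.action r F c)^[i] (y 0) ≠ y 0 := by
    intro i hi hip heq
    rw [hp] at hip
    exact Function.not_isPeriodicPt_of_pos_of_lt_minimalPeriod hi.ne' hip heq
  obtain ⟨ρ, hρ0, hρκ, hρ⟩ : ∃ ρ : ℝ, 0 < ρ ∧ ρ < κ ∧ ∀ i < p, 0 < i →
      (famD h.action r F c)^[i] (y 0) ∈ χ.source →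
      2 * ρ ≤ ‖χ ((famD h.action r F c)^[i] (y 0)) - χ (y 0)‖ := by
    have h1 : ∀ i < p, ∀ᶠ ρ in 𝓝[>] (0:ℝ), (0 < i →
      (famD h.action r F c)^[i] (y 0) ∈ χ.source →
      2 * ρ ≤ ‖χ ((famD h.action r F c)^[i] (y 0)) - χ (y 0)‖) := by
      intro i hip
      by_cases hi : 0 < i
      · by_cases hs : (famD h.action r F c)^[i] (y 0) ∈ χ.source
        · have h2 : 0 < ‖χ ((famD h.action r F c)^[i] (y 0)) - χ (y 0)‖ := by
            rw [norm_pos_iff, sub_ne_zero]
            intro h3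
            exact hpne i hi hip (χ.injOn hs hy0.1 h3)
          have h3 : ∀ᶠ ρ in 𝓝[>] (0:ℝ), ρ < ‖χ ((famD h.action r F c)^[i] (y 0)) -
              χ (y 0)‖ / 2 :=
            mem_nhdsWithin_of_mem_nhds (gt_mem_nhds (by positivity))
          filter_upwards [h3] with ρ hρ _ _
          linarith
        · exact Eventually.of_forall fun ρ _ h => absurd h hs
      · exact Eventually.of_forall fun ρ h => absurd h hi
    have h2 : ∀ᶠ ρ in 𝓝[>] (0:ℝ), ∀ i ∈ Finset.range p, (0 < i →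
      (famD h.action r F c)^[i] (y 0) ∈ χ.source →
      2 * ρ ≤ ‖χ ((famD h.action r F c)^[i] (y 0)) - χ (y 0)‖) := by
      rw [Filter.eventually_all_finset]
      intro i hi
      exact h1 i (Finset.mem_range.1 hi)
    have h3 : ∀ᶠ ρ in 𝓝[>] (0:ℝ), 0 < ρ := eventually_mem_nhdsWithin
    have h4 : ∀ᶠ ρ in 𝓝[>] (0:ℝ), ρ < κ := mem_nhdsWithin_of_mem_nhds (gt_mem_nhds hκ)
    obtain ⟨ρ, h5, h6, h7⟩ := (h2.and (h3.and h4)).exists
    exact ⟨ρ, h6, h7, fun i hi => h5 i (Finset.mem_range.2 hi)⟩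
  refine hCL c (y 0) ρ p hcκ hy0.1 hy0.2 hρ0 hρκ hp0 ?_ ?_ ?_
  · rw [hpfix]
    exact hy0.1
  · rw [hpfix, sub_self, norm_zero]
    positivity
  · intro i hi hip hs
    exact hρ i hip hi hs

end Pool.Agent.Helper16.OL
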