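import Mathlib
import Pool.Agent.Helper16.OL.Main

/-! Periodic points near chain recurrent points, for compositions with small elements of the action. -/

open scoped Topology ContDiff Manifold
open Set Metric Filter

noncomputable section

set_option linter.unusedSectionVars false

namespace Pool.Agent.Helper16.OL

open Pool.Agent.H718R2.G Pool.Agent.R774.Cl Pool.Agent.R774.ClStmt Pool.Agent.W564.SC

universe u

variable {k n m : ℕ} {N : Type u} [TopologicalSpace N] [ChartedSpace (V n) N]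
  [IsManifold (𝓡 n) ∞ N]

theorem per_near [T2Space N] [CompactSpace N] (r : ℕ∞) (hr : 1 ≤ r) (F : DiffM n N r)
    {L : Set (Fin k)} {Φ : V k → N → N} {K : Set N} {e : N → V m}
    {B : N → V m →L[ℝ] V m →L[ℝ] ℝ}
    (h : HypLeaves (n := n) L F Φ K e B) {z : N} (hz : ChainRecOn F K z) {κ : ℝ} (hκ : 0 < κ)
    {W : Set N} (hW' : W ∈ 𝓝 z) :
    ∃ c : V k, ‖c‖ < κ ∧ ∃ y ∈ W, ∃ p : ℕ, 1 ≤ p ∧ (famD h.action r F c)^[p] y = y := by
  obtain ⟨O, hO, hKO, hOper, hOleaf⟩ := h.leaves
  obtain ⟨κ₁, hκ₁, hκκ⟩ : ∃ κ₁ : ℝ, 0 < κ₁ ∧ k * κ₁ < κ := by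
    refine ⟨κ / (k + 1), by positivity, ?_⟩
    rw [mul_div_assoc', div_lt_iff₀ (by positivity)]
    nlinarith
  have hΦ : Act (E := V n) Φ :=
    ⟨h.action.smooth.of_le (by exact_mod_cast le_top), h.action.zero⟩
  have hF1 : ContMDiff (𝓡 n) (𝓡 n) 1 F :=
    F.contMDiff_toFun.of_le (by exact_mod_cast hr)
  obtain ⟨M, d, hd1, hd2, -⟩ := exists_embedding_euclidean_of_compact (I := 𝓡 n) (M := N)
  obtain ⟨δ, hδ, hcl⟩ := closing (E := V n) (T := V k) hΦ hF1 h.cont h.smooth
    (d := d) hd1.continuous hd2.injective h.closed h.inv h.free h.basic h.incr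
    (Q := fun x y s => y ∈ O ∧ ‖s‖ < κ₁ ∧ (x = z → y ∈ W))
    (by
      intro x hx
      have e1 : ∀ᶠ q : N × N × V k in 𝓝 (x, x, (0 : V k)), q.2.1 ∈ O := by
        have h1 : Continuous (fun q : N × N × V k => q.2.1) := continuous_fst.comp continuous_snd
        exact (h1.tendsto (x, x, (0 : V k))).eventually (hO.mem_nhds (hKO hx))
      have e2 : ∀ᶠ q : N × N × V k in 𝓝 (x, x, (0 : V k)), ‖q.2.2‖ < κ₁ := by
        have h1 : Continuous (fun q : N × N × V k => ‖q.2.2‖) :=
          (continuous_snd.comp continuous_snd).norm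
        have h2 := h1.tendsto (x, x, (0 : V k))
        simp only [norm_zero] at h2
        exact h2.eventually (gt_mem_nhds hκ₁)
      have e3 : ∀ᶠ q : N × N × V k in 𝓝 (x, x, (0 : V k)), (q.1 = z → q.2.1 ∈ W) := by
        by_cases hxz : x = z
        · have h1 : Continuous (fun q : N × N × V k => q.2.1) :=
            continuous_fst.comp continuous_snd
          rw [← hxz] at hW'
          filter_upwards [(h1.tendsto (x, x, (0 : V k))).eventually hW'] with q hq _
          exact hq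
        · have h1 : Continuous (fun q : N × N × V k => q.1) := continuous_fst
          filter_upwards [(h1.tendsto (x, x, (0 : V k))).eventually
            (isOpen_ne.mem_nhds hxz)] with q hq h2
          exact absurd h2 hq
      filter_upwards [e1, e2, e3] with q h1 h2 h3
      exact ⟨h1, h2, h3⟩)
  obtain ⟨q₀, hq₀⟩ := exists_nat_gt (1 / κ₁)
  obtain ⟨m', x, hm', hqm, hx0, hxm, hxK, hxW⟩ := long hz {q | ‖d q.2 - d q.1‖ < δ}
    (isOpen_lt ((hd1.continuous.comp continuous_snd).sub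
      (hd1.continuous.comp continuous_fst)).norm continuous_const)
    (fun x => by simpa using hδ) q₀
  have : NeZero m' := ⟨by omega⟩
  have hmκ : 1 ≤ (m' : ℝ) * κ₁ := by
    have h1 : (q₀ : ℝ) ≤ m' := by exact_mod_cast hqm
    have h2 : 1 / κ₁ < m' := hq₀.trans_le h1
    rw [div_lt_iff₀ hκ₁] at h2
    exact h2.le
  obtain ⟨y, s, hys, hQ⟩ := hcl m' (fun i => x i.val)
    (fun i => hxK _ (ZMod.val_lt i).le) (fun i => by
      have h1 := hxW i.val (ZMod.val_lt i)
      rw [wrap (hxm.trans hx0.symm) i]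
      exact h1)
  have hyO : ∀ i, y i ∈ O := fun i => (hQ i).1
  have hsκ : ∀ i, ‖s i‖ < κ₁ := fun i => (hQ i).2.1
  have hy0 : y 0 ∈ W := (hQ 0).2.2 (by rw [ZMod.val_zero, hx0])
  have hleaf : ∀ j : ℕ, ∃ τ : V k → V k, LeafMap L τ ∧
      ∀ t, F (Φ t (y (j : ZMod m'))) = Φ (τ t) (F (y (j : ZMod m'))) := fun j => hOleaf _ (hyO _)
  choose τ hτ hτF using hleaf
  obtain ⟨c, hc, hc1, hc2⟩ := exists_c hτ hκ₁ (S := fun j => s (j : ZMod m')) (n := m')
    (fun j i _ => by
      have h1 := PiLp.norm_apply_le (s (j : ZMod m')) i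
      rw [Real.norm_eq_abs] at h1
      exact h1.trans (hsκ _).le) hmκ
  have hcκ : ‖c‖ < κ := (norm_le_sum c hc).trans_lt hκκ
  have hstep : ∀ i, F (y i) = Φ (-(s i)) (y (i + 1)) := by
    intro i
    rw [← hys i, ← h.action.add, neg_add_cancel, h.action.zero]
  have hit : ∀ j : ℕ, (famD h.action r F c)^[j] (y 0) =
      Φ (orbU τ (fun j => s (j : ZMod m')) c j) (y (j : ZMod m')) := by
    intro j
    induction j with
    | zero => simp [orbU, h.action.zero]
    | succ j ih =>
      rw [Function.iterate_succ_apply', ih, famD_apply, hτF, hstep,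
        ← h.action.add, ← h.action.add]
      have e1 : ((j + 1 : ℕ) : ZMod m') = (j : ZMod m') + 1 := by push_cast; rfl
      rw [e1]
      congr 1
  refine ⟨c, hcκ, y 0, hy0, m', hm', ?_⟩
  rw [hit, ZMod.natCast_self]
  exact hOper _ (hyO 0) _ hc1 hc2

end Pool.Agent.Helper16.OL
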