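import Mathlib
import Pool.Agent.Helper16.OL.Main
import Pool.Agent.R774.OS2

/-! Diffeomorphisms which are hyperbolic transversally to oriented leaves on the chain recurrent set: this
persists for the compositions with small elements of the action. -/

open scoped Topology ContDiff Manifold
open Set Metric Filter

noncomputable section

set_option linter.unusedSectionVars false

namespace Pool.Agent.Helper16.OL

open Pool.Agent.H718R2.G Pool.Agent.R774.Cl Pool.Agent.R774.ClStmt Pool.Agent.W564.SC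
open Pool.Agent.R774.OS

universe u

variable {k n m : ℕ} {N : Type u} [TopologicalSpace N] [ChartedSpace (V n) N]

/-- On its chain recurrent set `F` is hyperbolic transversally to oriented leaves: `Φ` is a smooth action
of `ℝᵏ`, locally free on `CR F`; at the points of `CR F` the quadratic form `Q = quad e B` (of any
signature) increases strictly under `DF` on all vectors which are not tangent to the orbits; for the points
`y` of a neighbourhood of `CR F` the coordinates `i ∉ L` act as circles, `F` maps the orbit of `y` to the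
orbit of `F y` by a leaf map, `DF` maps the vectors at `y` which are tangent to the orbits to such vectors,
and `Q` does not change in the direction of the orbits. -/
structure HypCR (L : Set (Fin k)) (F : N → N) (Φ : V k → N → N) (e : N → V m)
    (B : N → V m →L[ℝ] V m →L[ℝ] ℝ) : Prop where
  action : IsAction k n N Φ
  smooth : ContMDiff (𝓡 n) (𝓡 m) 1 e
  cont : Continuous B
  free : ∀ x ∈ CR F, ∀ s, orb (n := n) Φ x s = 0 → s = 0
  incr : ∀ x ∈ CR F, ∀ v : V n, (∀ s, v ≠ orb Φ x s) →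
    quad e B x v < quad e B (F x) (dr (V n) (V n) F x v)
  near : ∃ O : Set N, IsOpen O ∧ CR F ⊆ O ∧
    (∀ y ∈ O, ∀ v : V k, (∀ i ∈ L, v i = 0) → (∀ i ∉ L, ∃ l : ℤ, v i = l) → Φ v y = y) ∧
    (∀ y ∈ O, ∃ τ : V k → V k, LeafMap L τ ∧ ∀ t, F (Φ t y) = Φ (τ t) (F y)) ∧
    (∀ y ∈ O, ∀ s : V k, ∃ s' : V k,
      dr (V n) (V n) F y (orb (n := n) Φ y s) = orb (n := n) Φ (F y) s') ∧
    ∀ y ∈ O, ∀ (v : V n) (s : V k), quad e B y (v + orb Φ y s) = quad e B y v

variable [IsManifold (𝓡 n) ∞ N]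

/-- the action preserves the infinitesimal action -/
lemma dr_act {Φ : V k → N → N} (h : IsAction k n N Φ) (c : V k) (y : N) (s : V k) :
    dr (V n) (V n) (Φ c) y (orb (n := n) Φ y s) = orb (n := n) Φ (Φ c y) s := by
  have hs : ∀ q : V k × N, MDifferentiableAt ((𝓡 k).prod (𝓡 n)) (𝓡 n)
      (fun q : V k × N => Φ q.1 q.2) q := fun q => h.smooth.mdifferentiable (by simp) q
  have h1 : ∀ y : N, MDifferentiableAt (𝓡 n) (𝓡 n) (Φ c) y := by
    intro y
    have h2 : MDifferentiableAt (𝓡 n) ((𝓡 k).prod (𝓡 n)) (fun y : N => (c, y)) y :=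
      mdifferentiableAt_const.prodMk mdifferentiableAt_id
    exact (hs _).comp _ h2
  have h3 : MDifferentiableAt (𝓡 k) (𝓡 n) (fun a => Φ a y) 0 := by
    have h2 : MDifferentiableAt (𝓡 k) ((𝓡 k).prod (𝓡 n)) (fun a : V k => (a, y)) 0 :=
      mdifferentiableAt_id.prodMk mdifferentiableAt_const
    exact (hs _).comp _ h2
  have h4 : (fun a => Φ a (Φ c y)) = fun a => Φ c (Φ a y) := by
    funext a
    rw [← h.add, ← h.add, add_comm]
  unfold orb
  rw [h4]
  have h5 := dr_comp (E₁ := V k) (E₂ := V n) (E₃ := V n) (g := Φ c) (f := fun a => Φ a y) (x := 0)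
    (h1 _) h3
  rw [h5, h.zero]
  rfl

lemma incr_near {F : N → N} (hF : ContMDiff (𝓡 n) (𝓡 n) 1 F)
    {Φ : V k → N → N} {e : N → V m} {B : N → V m →L[ℝ] V m →L[ℝ] ℝ}
    (hact : IsAction k n N Φ) (he : ContMDiff (𝓡 n) (𝓡 m) 1 e) (hB : Continuous B) {O : Set N}
    (hO : IsOpen O)
    (htang : ∀ y ∈ O, ∀ s : V k, ∃ s' : V k,
      dr (V n) (V n) F y (orb (n := n) Φ y s) = orb (n := n) Φ (F y) s')
    (hbasic : ∀ y ∈ O, ∀ (v : V n) (s : V k), quad e B y (v + orb Φ y s) = quad e B y v)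
    {x₀ : N} (hx₀ : x₀ ∈ O) (hFx₀ : F x₀ ∈ O) (hfree : ∀ s, orb (n := n) Φ x₀ s = 0 → s = 0)
    (hincr : ∀ v : V n, (∀ s, v ≠ orb Φ x₀ s) →
      quad e B x₀ v < quad e B (F x₀) (dr (V n) (V n) F x₀ v)) :
    ∀ᶠ q : N × V k in 𝓝 (x₀, 0), (∀ s, orb (n := n) Φ q.1 s = 0 → s = 0) ∧
      ∀ v : V n, (∀ s, v ≠ orb Φ q.1 s) →
        quad e B q.1 v < quad e B (Φ q.2 (F q.1)) (dr (V n) (V n) (fun y => Φ q.2 (F y)) q.1 v) := by
  have hΦ : Act (E := V n) Φ :=
    ⟨hact.smooth.of_le (by exact_mod_cast le_top), hact.zero⟩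
  have ha : x₀ ∈ (extChartAt (𝓡 n) x₀).source := mem_extChartAt_source x₀
  have hb : F x₀ ∈ (extChartAt (𝓡 n) (F x₀)).source := mem_extChartAt_source _
  set a := x₀ with hadef
  set b := F x₀ with hbdef
  -- a left inverse of the infinitesimal action
  have hker : LinearMap.ker ((Xc (E := V n) Φ a a : V k →L[ℝ] V n) : V k →ₗ[ℝ] V n) = ⊥ := by
    rw [LinearMap.ker_eq_bot']
    intro s hs
    have hs1 : Xc (E := V n) Φ a a s = 0 := hs
    rw [Xc_eq hΦ ha] at hs1
    exact hfree s (th_inj ha hs1)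
  obtain ⟨g, hg⟩ := LinearMap.exists_leftInverse_of_injective _ hker
  obtain ⟨β, hβ⟩ : ∃ β : V n →L[ℝ] V k, β.comp (Xc (E := V n) Φ a a) =
      ContinuousLinearMap.id ℝ (V k) :=
    ⟨LinearMap.toContinuousLinearMap g, by
      ext s : 1
      exact LinearMap.congr_fun hg s⟩
  have e1 : ∀ᶠ x in 𝓝 a, ‖β.comp (Xc (E := V n) Φ a x) - ContinuousLinearMap.id ℝ (V k)‖ <
      1 / 4 := by
    have h3 : ContinuousAt (fun x => ‖β.comp (Xc (E := V n) Φ a x) -
        ContinuousLinearMap.id ℝ (V k)‖) a :=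
      ((continuousAt_const.clm_comp (Xc_cont hΦ ha)).sub continuousAt_const).norm
    refine h3.eventually (gt_mem_nhds ?_)
    show ‖β.comp (Xc (E := V n) Φ a a) - ContinuousLinearMap.id ℝ (V k)‖ < 1 / 4
    rw [hβ, sub_self, norm_zero]
    norm_num
  have hfst : Tendsto (fun q : N × V k => q.1) (𝓝 (a, 0)) (𝓝 a) := continuous_fst.tendsto (a, 0)
  have hF' : ContinuousAt (fun q : N × V k => Φ q.2 (F q.1)) (a, 0) := by
    have h1 : Continuous fun q : V k × N => Φ q.1 q.2 := hact.smooth.continuous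
    exact (h1.comp (continuous_snd.prodMk (hF.continuous.comp continuous_fst))).continuousAt
  have hJ := JJ_smooth hΦ hF ha hb
  have hpt : ContinuousAt (fun q : N × V k => ((extChartAt (𝓡 n) a q.1, q.2) : V n × V k))
      (a, 0) :=
    ((continuousAt_extChartAt' ha).comp (x := ((a, 0) : N × V k)) continuousAt_fst).prodMk
      continuousAt_snd
  have hfd : ContinuousAt (fun q : N × V k => fderiv ℝ (JJ Φ F a b)
      (extChartAt (𝓡 n) a q.1, q.2)) (a, 0) := by
    have h1 : ContinuousAt (fderiv ℝ (JJ Φ F a b)) (extChartAt (𝓡 n) a a, 0) :=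
      (hJ.fderiv_right (m := 0) (by simp)).continuousAt
    exact ContinuousAt.comp (g := fderiv ℝ (JJ Φ F a b)) (x := ((a, 0) : N × V k)) h1 hpt
  -- the inequality on the unit sphere of the kernel of `β`
  have hS : IsCompact {z : V n | β z = 0 ∧ ‖z‖ = 1} := by
    have h1 : {z : V n | β z = 0 ∧ ‖z‖ = 1} = {z | β z = 0} ∩ sphere (0 : V n) 1 := by
      ext z
      simp
    rw [h1]
    exact (isCompact_sphere _ _).inter_left (isClosed_eq β.continuous continuous_const)
  have e2 : ∀ᶠ q : N × V k in 𝓝 (a, 0), ∀ z ∈ {z : V n | β z = 0 ∧ ‖z‖ = 1},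
      qf B e a q.1 z < qf B e b (Φ q.2 (F q.1))
        (fderiv ℝ (JJ Φ F a b) (extChartAt (𝓡 n) a q.1, q.2) (z, 0)) := by
    refine hS.eventually_forall_of_forall_eventually fun z hz => ?_
    have h1 : qf B e a a z < qf B e b (Φ 0 (F a))
        (fderiv ℝ (JJ Φ F a b) (extChartAt (𝓡 n) a a, 0) (z, 0)) := by
      rw [hact.zero]
      refine strict_chart hΦ hF ha hb he (β := β) ?_
        hincr hz.1 ?_
      · rw [hβ, sub_self, norm_zero]; norm_num
      · intro h0
        have := hz.2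
        rw [h0, norm_zero] at this
        exact zero_ne_one this
    have hc1 : ContinuousAt (fun p : (N × V k) × V n => qf B e a p.1.1 p.2) ((a, 0), z) :=
      contAt_qf hB he (continuousAt_fst.comp continuousAt_fst)
        continuousAt_snd ha
    have hc2 : ContinuousAt (fun p : (N × V k) × V n => qf B e b (Φ p.1.2 (F p.1.1))
        (fderiv ℝ (JJ Φ F a b) (extChartAt (𝓡 n) a p.1.1, p.1.2) (p.2, 0))) ((a, 0), z) := by
      refine contAt_qf hB he
        (ContinuousAt.comp (g := fun q : N × V k => Φ q.2 (F q.1))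
          (x := (((a, 0), z) : (N × V k) × V n)) hF' continuousAt_fst) ?_ ?_
      · exact (ContinuousAt.comp (g := fun q : N × V k => fderiv ℝ (JJ Φ F a b)
          (extChartAt (𝓡 n) a q.1, q.2)) (x := (((a, 0), z) : (N × V k) × V n)) hfd
          continuousAt_fst).clm_apply (continuousAt_snd.prodMk continuousAt_const)
      · show Φ 0 (F a) ∈ _
        rw [hact.zero]
        exact hb
    exact (hc1.eventually_lt hc2 h1)
  have e3 : ∀ᶠ q : N × V k in 𝓝 (a, 0), q.1 ∈ (extChartAt (𝓡 n) a).source :=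
    hfst.eventually (extChartAt_source_mem_nhds a)
  have e4 : ∀ᶠ q : N × V k in 𝓝 (a, 0), Φ q.2 (F q.1) ∈ (extChartAt (𝓡 n) b).source := by
    refine hF'.eventually ?_
    show (extChartAt (𝓡 n) b).source ∈ 𝓝 (Φ 0 (F a))
    rw [hact.zero]
    exact extChartAt_source_mem_nhds b
  have e5 : ∀ᶠ q : N × V k in 𝓝 (a, 0), ContDiffAt ℝ 1 (JJ Φ F a b)
      (extChartAt (𝓡 n) a q.1, q.2) :=
    hpt.eventually (hJ.eventually (by simp))
  have e6 : ∀ᶠ q : N × V k in 𝓝 (a, 0), q.1 ∈ O := hfst.eventually (hO.mem_nhds hx₀)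
  have e7 : ∀ᶠ q : N × V k in 𝓝 (a, 0), Φ q.2 (F q.1) ∈ O := by
    refine hF'.eventually ?_
    show O ∈ 𝓝 (Φ 0 (F a))
    rw [hact.zero]
    exact hO.mem_nhds hFx₀
  filter_upwards [hfst.eventually e1, e2, e3, e4, e5, e6, e7] with q h1 h2 h3 h4 h5 h6O h7O
  obtain ⟨x, c⟩ := q
  simp only at h1 h2 h3 h4 h5 h6O h7O ⊢
  have hinj : Function.Injective (β.comp (Xc (E := V n) Φ a x) : V k →ₗ[ℝ] V k) := by
    rw [← LinearMap.ker_eq_bot, LinearMap.ker_eq_bot']
    intro s hs
    have hs' : β (Xc (E := V n) Φ a x s) = 0 := hs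
    have h6 := (β.comp (Xc (E := V n) Φ a x) - ContinuousLinearMap.id ℝ (V k)).le_opNorm s
    have h7 : (β.comp (Xc (E := V n) Φ a x) - ContinuousLinearMap.id ℝ (V k)) s = - s := by
      rw [sub_apply, ContinuousLinearMap.comp_apply, hs']
      simp
    rw [h7, norm_neg] at h6
    have h8 : ‖β.comp (Xc (E := V n) Φ a x) - ContinuousLinearMap.id ℝ (V k)‖ * ‖s‖ ≤
        1 / 4 * ‖s‖ := mul_le_mul_of_nonneg_right h1.le (norm_nonneg _)
    have h9 : ‖s‖ = 0 := le_antisymm (by linarith) (norm_nonneg _)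
    exact norm_eq_zero.1 h9
  refine ⟨fun s hs => ?_, fun v hv => ?_⟩
  · apply hinj
    show β (Xc (E := V n) Φ a x s) = β (Xc (E := V n) Φ a x 0)
    rw [Xc_eq hΦ h3 s]
    have h10 : dr (V k) (V n) (fun s => Φ s x) 0 s = 0 := hs
    rw [h10, map_zero, map_zero, map_zero, map_zero]
  -- remove the component in the direction of the orbit
  obtain ⟨s, hs⟩ : ∃ s : V k, β (Xc (E := V n) Φ a x s) = β (th a x v) := by
    exact (LinearMap.injective_iff_surjective.1 hinj) (β (th a x v))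
  obtain ⟨v', hv'⟩ : ∃ v' : V n, v = v' + orb (n := n) Φ x s := ⟨v - orb Φ x s, by simp⟩
  have hth : th a x v = th a x v' + Xc (E := V n) Φ a x s := by
    rw [hv', map_add, Xc_eq hΦ h3]
    rfl
  have hβ' : β (th a x v') = 0 := by
    have h6 := hs
    rw [hth, map_add] at h6
    simpa using h6.symm
  have hne : th a x v' ≠ 0 := by
    intro h6
    have h7 := th_inj h3 h6
    rw [h7, zero_add] at hv'
    exact hv s hv'
  have hFc : ContMDiff (𝓡 n) (𝓡 n) 1 (fun y => Φ c (F y)) := by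
    have h6 : ContMDiff (𝓡 n) ((𝓡 k).prod (𝓡 n)) 1 (fun y : N => (c, F y)) :=
      contMDiff_const.prodMk hF
    exact hΦ.smooth.comp h6
  -- the inequality for `v'`
  have key : qf B e a x (th a x v') < qf B e b (Φ c (F x))
      (fderiv ℝ (JJ Φ F a b) (extChartAt (𝓡 n) a x, c) (th a x v', 0)) := by
    obtain ⟨z, hz⟩ : ∃ z, z = th a x v' := ⟨_, rfl⟩
    rw [← hz] at hβ' hne ⊢
    have hz0 : 0 < ‖z‖ := norm_pos_iff.2 hne
    have h6 := h2 (‖z‖⁻¹ • z) ⟨by rw [map_smul, hβ', smul_zero], by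
      rw [norm_smul, norm_inv, norm_norm, inv_mul_cancel₀ hz0.ne']⟩
    have h7 : ((‖z‖⁻¹ • z, 0) : V n × V k) = ‖z‖⁻¹ • (z, 0) := by
      rw [Prod.smul_mk, smul_zero]
    rw [h7, map_smul, qf_smul, qf_smul] at h6
    exact lt_of_mul_lt_mul_left h6 (by positivity)
  have h8 : fderiv ℝ (JJ Φ F a b) (extChartAt (𝓡 n) a x, c) (th a x v', 0) =
      th b (Φ c (F x)) (dr (V n) (V n) (fun y => Φ c (F y)) x v') := by
    rw [← chart_comp (f := fun y => Φ c (F y)) hFc h3 h4]
    have h9 := (h5.differentiableAt (by simp)).hasFDerivAt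
    have h10 : HasFDerivAt (fun p : V n => ((p, c) : V n × V k))
        (ContinuousLinearMap.inl ℝ (V n) (V k)) (extChartAt (𝓡 n) a x) := by
      have := (hasFDerivAt_id (𝕜 := ℝ) (extChartAt (𝓡 n) a x)).prodMk
        (hasFDerivAt_const c (extChartAt (𝓡 n) a x))
      exact this
    have h11 := HasFDerivAt.comp (g := JJ Φ F a b) (extChartAt (𝓡 n) a x) h9 h10
    have h12 : (JJ Φ F a b ∘ fun p : V n => ((p, c) : V n × V k)) =
        (fun p => extChartAt (𝓡 n) b (Φ c (F ((extChartAt (𝓡 n) a).symm p)))) := rfl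
    rw [h12] at h11
    rw [h11.fderiv]
    rfl
  rw [h8] at key
  have h9 : quad e B x v = quad e B x v' := by
    rw [hv']
    exact hbasic x h6O v' s
  have h10 : qf B e a x (th a x v') = quad e B x v' := qf_th he h3 v'
  have h11 : qf B e b (Φ c (F x)) (th b (Φ c (F x)) (dr (V n) (V n) (fun y => Φ c (F y)) x v')) =
      quad e B (Φ c (F x)) (dr (V n) (V n) (fun y => Φ c (F y)) x v') :=
    qf_th he h4 _
  have h12 : quad e B (Φ c (F x)) (dr (V n) (V n) (fun y => Φ c (F y)) x v) =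
      quad e B (Φ c (F x)) (dr (V n) (V n) (fun y => Φ c (F y)) x v') := by
    obtain ⟨s', hs'⟩ := htang x h6O s
    have h13 : dr (V n) (V n) (fun y => Φ c (F y)) x (orb (n := n) Φ x s) =
        orb (n := n) Φ (Φ c (F x)) s' := by
      have hs0 : ∀ q : V k × N, MDifferentiableAt ((𝓡 k).prod (𝓡 n)) (𝓡 n)
        (fun q : V k × N => Φ q.1 q.2) q := fun q => hact.smooth.mdifferentiable (by simp) q
      have h14 : MDifferentiableAt (𝓡 n) (𝓡 n) (Φ c) (F x) := by
        have h15 : MDifferentiableAt (𝓡 n) ((𝓡 k).prod (𝓡 n)) (fun y : N => (c, y)) (F x) :=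
          mdifferentiableAt_const.prodMk mdifferentiableAt_id
        exact (hs0 _).comp _ h15
      have h16 := dr_comp (E₁ := V n) (E₂ := V n) (E₃ := V n) (g := Φ c) (f := F) (x := x)
        h14 (hF.mdifferentiableAt one_ne)
      rw [h16, ContinuousLinearMap.comp_apply, hs', dr_act hact]
    rw [hv', map_add, h13]
    exact hbasic _ h7O _ _
  rw [h9, h12, ← h10, ← h11]
  exact key


section metric
variable {N : Type} [MetricSpace N] [CompactSpace N]

/-- upper semicontinuity of the chain recurrent set -/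
lemma cr_usc {F : N → N} (hF : Continuous F) {A : Set N} (hA : IsOpen A) (hFA : CR F ⊆ A) :
    ∃ δ : ℝ, 0 < δ ∧ ∀ G : N → N, (∀ x, dist (G x) (F x) < δ) → CR G ⊆ A := by
  obtain ⟨η, hη, hηA⟩ := (isClosed_CR hF).isCompact.exists_thickening_subset_open hA hFA
  obtain ⟨δ, hδ, hnear⟩ := near_CR hF hη
  refine ⟨δ / 2, by positivity, fun G hG z hz => ?_⟩
  obtain ⟨m, X, hm, h0, h1, h2⟩ := mem_CR.1 hz (δ / 2) (by positivity)
  obtain ⟨c, hc, hzc⟩ := hnear z ⟨m, X, hm, h0, h1, fun j => by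
    calc dist (F (X j)) (X (j + 1)) ≤ dist (F (X j)) (G (X j)) + dist (G (X j)) (X (j + 1)) :=
          dist_triangle _ _ _
      _ < δ / 2 + δ / 2 := add_lt_add (by rw [dist_comm]; exact hG _) (h2 j)
      _ = δ := by ring⟩
  exact hηA (mem_thickening_iff.2 ⟨c, hc, hzc⟩)

lemma cr_inv {F : N → N} (hF : Continuous F) {z : N} (hz : z ∈ CR F) : F z ∈ CR F := by
  rw [← (isClosed_CR hF).closure_eq, Metric.mem_closure_iff]
  intro ε hε
  obtain ⟨m, x, hm, h0, h1, h2, h3⟩ := conley hF hz {q | dist q.1 q.2 < ε}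
    (isOpen_lt continuous_dist continuous_const) (fun x => by simpa using hε)
  have h4 := h3 0 (by omega)
  rw [h0] at h4
  exact ⟨x 1, h2 1 hm, h4⟩

end metric

section persist
variable {k n m : ℕ} {N : Type} [TopologicalSpace N] [ChartedSpace (V n) N]
  [IsManifold (𝓡 n) ∞ N] [T2Space N] [CompactSpace N]

/-- the property persists -/
theorem HypCR.persist {L : Set (Fin k)} {r : ℕ∞} (hr : 1 ≤ r) {F : DiffM n N r}
    {Φ : V k → N → N} {e : N → V m} {B : N → V m →L[ℝ] V m →L[ℝ] ℝ}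
    (h : HypCR (n := n) L F Φ e B) : ∃ κ : ℝ, 0 < κ ∧ ∀ c : V k, ‖c‖ < κ →
      HypLeaves (n := n) L (famD h.action r F c) Φ (CR (famD h.action r F c)) e B := by
  have : SecondCountableTopology N := ChartedSpace.secondCountable_of_sigmaCompact (V n) N
  let _ : MetricSpace N := TopologicalSpace.metrizableSpaceMetric N
  have hF : ContMDiff (𝓡 n) (𝓡 n) 1 F := F.contMDiff_toFun.of_le (by exact_mod_cast hr)
  obtain ⟨O, hO, hFO, hper, hleaf, htang, hbasic⟩ := h.near
  have h1 : ∀ᶠ q : N × V k in 𝓝ˢ (CR F ×ˢ {0}), (∀ s, orb (n := n) Φ q.1 s = 0 → s = 0) ∧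
      ∀ v : V n, (∀ s, v ≠ orb Φ q.1 s) →
        quad e B q.1 v < quad e B (Φ q.2 (F q.1))
          (dr (V n) (V n) (fun y => Φ q.2 (F y)) q.1 v) := by
    rw [eventually_nhdsSet_iff_forall]
    rintro ⟨x₀, c⟩ ⟨hx₀, hc⟩
    simp only [mem_singleton_iff] at hc hx₀
    subst hc
    exact incr_near hF h.action h.smooth h.cont hO htang hbasic (hFO hx₀)
      (hFO (cr_inv F.continuous hx₀)) (h.free x₀ hx₀) (h.incr x₀ hx₀)
  rw [(isClosed_CR F.continuous).isCompact.nhdsSet_prod_eq isCompact_singleton,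
    nhdsSet_singleton, Filter.eventually_prod_iff] at h1
  obtain ⟨pa, hpa, pb, hpb, hP⟩ := h1
  obtain ⟨A, hA, hFA, hApa⟩ := eventually_nhdsSet_iff_exists.1 hpa
  obtain ⟨κ₁, hκ₁, hκpb⟩ := Metric.eventually_nhds_iff.1 hpb
  obtain ⟨δ, hδ, husc⟩ := cr_usc F.continuous (hA.inter hO) (subset_inter hFA hFO)
  -- uniform closeness
  have h2 : ∀ᶠ c : V k in 𝓝 0, ∀ x ∈ (univ : Set N), dist (Φ c (F x)) (F x) < δ := by
    refine isCompact_univ.eventually_forall_of_forall_eventually fun x₀ _ => ?_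
    have hΦc : Continuous fun q : V k × N => Φ q.1 q.2 := h.action.smooth.continuous
    have h3 : Continuous fun q : V k × N => dist (Φ q.1 (F q.2)) (F q.2) :=
      (hΦc.comp (continuous_fst.prodMk (F.continuous.comp continuous_snd))).dist
        (F.continuous.comp continuous_snd)
    have h4 : dist (Φ 0 (F x₀)) (F x₀) < δ := by rw [h.action.zero, dist_self]; exact hδ
    exact (h3.tendsto (0, x₀)).eventually (gt_mem_nhds h4)
  obtain ⟨κ₂, hκ₂, hκ2⟩ := Metric.eventually_nhds_iff.1 h2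
  refine ⟨min κ₁ κ₂, lt_min hκ₁ hκ₂, fun c hc => ?_⟩
  have hc1 := hκpb (y := c) (by rw [dist_zero_right]; exact hc.trans_le (min_le_left _ _))
  have hc2 := hκ2 (y := c) (by rw [dist_zero_right]; exact hc.trans_le (min_le_right _ _))
  have hFc : ((famD h.action r F c : DiffM n N r) : N → N) = fun y => Φ c (F y) := rfl
  have hcont : Continuous fun y => Φ c (F y) := (famD h.action r F c).continuous
  rw [hFc]
  have hsub : CR (fun y => Φ c (F y)) ⊆ A ∩ O := husc _ fun x => hc2 x (mem_univ x)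
  refine ⟨h.action, isClosed_CR hcont, fun x hx => cr_inv hcont hx, ?_, ?_, h.smooth, h.cont,
    fun x hx => hbasic x (hsub hx).2, fun x hx => (hP (hApa x (hsub hx).1) hc1).2⟩
  · refine ⟨O, hO, fun x hx => (hsub hx).2, hper, fun y hy => ?_⟩
    obtain ⟨τ, hτ, hτF⟩ := hleaf y hy
    refine ⟨τ, hτ, fun t => ?_⟩
    rw [hτF, ← h.action.add, ← h.action.add, add_comm]
  · exact fun x hx => (hP (hApa x (hsub hx).1) hc1).1

end persist

end Pool.Agent.Helper16.OL
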