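import Mathlib
import Pool.Agent.Helper16.OL.PersistCR
import Pool.Agent.Helper16.OL.PerNear
import Pool.Agent.R774.OS2
import Pool.Agent.Y504.CO.Gen
import Pool.Agent.Y504.CO.GnrF

/-! `Ω`-stable diffeomorphisms which are hyperbolic transversally to oriented leaves. -/

open scoped Topology ContDiff Manifold
open Set Metric Filter

noncomputable section

set_option linter.unusedSectionVars false

namespace Pool.Agent.Helper16.OL

open Pool.Agent.H718R2.G Pool.Agent.R774.Cl Pool.Agent.R774.ClStmt Pool.Agent.W564.SC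
open Pool.Agent.R774.OS Pool.Agent.TH80.OMS Pool.Agent.Y504.CO

universe u

section gen
variable {N : Type u} [TopologicalSpace N]

lemma isClosed_omega (F : N → N) : IsClosed (Omega F) := by
  rw [← isOpen_compl_iff, isOpen_iff_mem_nhds]
  intro x hx
  have hx' : ¬ ∀ W : Set N, IsOpen W → x ∈ W → ∃ k : ℕ, 1 ≤ k ∧ ∃ y ∈ W, F^[k] y ∈ W := hx
  push Not at hx'
  obtain ⟨W, hW, hxW, h⟩ := hx'
  filter_upwards [hW.mem_nhds hxW] with y hy hcon
  obtain ⟨k', hk', w, hw, hw'⟩ := hcon W hW hy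
  exact h k' hk' w hw hw'

lemma closure_per_sub (F : N → N) : closure (Per F) ⊆ Omega F := by
  rw [(isClosed_omega F).closure_subset_iff]
  rintro p ⟨k', hk', hp⟩
  exact per_mem_omega hk' hp

/-- density of the periodic points is preserved by conjugacies of the nonwandering sets -/
lemma dense_of_conj {F G : N → N} (hF : Continuous F) (hG : Continuous G) (h : OmegaConj F G)
    (hd : Omega G ⊆ closure (Per G)) : Omega F ⊆ closure (Per F) := by
  obtain ⟨h, hh⟩ := h
  intro x hx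
  rw [_root_.mem_closure_iff]
  intro W hW hxW
  -- the image of `W` under the conjugacy
  have h1 : IsOpen ((fun y : Omega F => (y : N)) ⁻¹' W) := hW.preimage continuous_subtype_val
  have h2 : IsOpen (h.symm ⁻¹' ((fun y : Omega F => (y : N)) ⁻¹' W)) :=
    h1.preimage h.symm.continuous
  obtain ⟨W', hW', hWW⟩ := isOpen_induced_iff.1 h2
  have h3 : ((h ⟨x, hx⟩ : Omega G) : N) ∈ W' := by
    have h4 : h ⟨x, hx⟩ ∈ h.symm ⁻¹' ((fun y : Omega F => (y : N)) ⁻¹' W) := by
      show ((h.symm (h ⟨x, hx⟩) : Omega F) : N) ∈ W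
      rw [h.symm_apply_apply]
      exact hxW
    rw [← hWW] at h4
    exact h4
  obtain ⟨q, hqW, k, hk, hq⟩ := _root_.mem_closure_iff.1 (hd (h ⟨x, hx⟩).2) W' hW' h3
  have hqo : q ∈ Omega G := per_mem_omega hk hq
  refine ⟨(h.symm ⟨q, hqo⟩ : N), ?_, k, hk, ?_⟩
  · have h5 : (⟨q, hqo⟩ : Omega G) ∈ (fun y : Omega G => (y : N)) ⁻¹' W' := hqW
    rw [hWW] at h5
    exact h5
  · exact conj_iter hG h.symm (conj_symm hF h hh) k ⟨q, hqo⟩ ⟨q, hqo⟩ hq

end gen

section iter
variable {n : ℕ} {N : Type} [TopologicalSpace N] [ChartedSpace (V n) N] [IsManifold (𝓡 n) ∞ N]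

/-- iterates of diffeomorphisms -/
def powD {r : ℕ∞} (g : DiffM n N r) : ℕ → DiffM n N r
  | 0 => Diffeomorph.refl (𝓡 n) N r
  | j + 1 => (powD g j).trans g

lemma powD_apply {r : ℕ∞} (g : DiffM n N r) (j : ℕ) (y : N) : powD g j y = g^[j] y := by
  induction j with
  | zero => rfl
  | succ j ih =>
    rw [Function.iterate_succ_apply', ← ih]
    rfl

lemma isFam_pow {r : ℕ∞} {P : Type} [NormedAddCommGroup P] [NormedSpace ℝ P]
    {H : P → DiffM n N r} (hH : IsFam n N r H) (j : ℕ) : IsFam n N r (fun c => powD (H c) j) := by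
  induction j with
  | zero => intro y; exact contMDiffAt_snd
  | succ j ih =>
    intro y
    have h1 : ContMDiffAt (𝓘(ℝ, P).prod (𝓡 n)) (𝓘(ℝ, P).prod (𝓡 n)) r
        (fun q : P × N => (q.1, powD (H q.1) j q.2)) ((0 : P), y) :=
      contMDiffAt_fst.prodMk (ih y)
    exact ContMDiffAt.comp (g := fun q : P × N => H q.1 q.2) ((0 : P), y) (hH _) h1

/-- periodic points of iterates -/
lemma per_of_pow {r : ℕ∞} {g : DiffM n N r} {p : ℕ} (hp : 1 ≤ p) {q : N}
    (hq : q ∈ Per (powD g p)) : q ∈ Per g := by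
  obtain ⟨l, hl, h⟩ := hq
  have h1 : ((powD g p : DiffM n N r) : N → N) = g^[p] := funext fun y => powD_apply g p y
  rw [h1, ← Function.iterate_mul] at h
  exact ⟨p * l, Nat.mul_pos hp hl, h⟩

end iter

section conj
variable {n : ℕ} {N : Type} [TopologicalSpace N] [ChartedSpace (V n) N] [IsManifold (𝓡 n) ∞ N]

lemma omegaConj_trans {F G G' : N → N} (hF : Continuous F) (h1 : OmegaConj F G)
    (h2 : OmegaConj F G') : OmegaConj G G' := by
  obtain ⟨h, hh⟩ := h1
  obtain ⟨h', hh'⟩ := h2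
  refine ⟨h.symm.trans h', fun x y hxy => ?_⟩
  exact hh' _ _ (conj_symm hF h hh x y hxy)

lemma stable_near {r : ℕ∞} {F : DiffM n N r} {U : Set (DiffM n N r)}
    (hU : IsOpen[strongTop n N r] U) (hc : ∀ G ∈ U, OmegaConj F G) {G : DiffM n N r}
    (hG : G ∈ U) : OmegaStable n N r G :=
  ⟨U, hU, hG, fun G' hG' => omegaConj_trans F.continuous (hc G hG) (hc G' hG')⟩

end conj

section main
variable {k n m : ℕ} {N : Type} [TopologicalSpace N] [ChartedSpace (V n) N]
  [IsManifold (𝓡 n) ∞ N] [T2Space N] [CompactSpace N]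

lemma famD_famD {Φ : V k → N → N} (h : IsAction k n N Φ) (r : ℕ∞) (F : DiffM n N r) (c d : V k) :
    famD h r (famD h r F c) d = famD h r F (d + c) := by
  ext y
  show Φ d (Φ c (F y)) = Φ (d + c) (F y)
  rw [h.add]

/-- hyperbolic periodic points persist in the family -/
lemma per_persist {r : ℕ∞} (hr : 1 ≤ r) {G : DiffM n N r} {Φ : V k → N → N}
    (h : IsAction k n N Φ) {y : N} {p : ℕ} (hp : 1 ≤ p) (hy : G^[p] y = y) (hhyp : HypAt n G y)
    {O : Set N} (hO : IsOpen O) (hyO : y ∈ O) :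
    ∃ κ : ℝ, 0 < κ ∧ ∀ d : V k, ‖d‖ < κ → ∃ q ∈ O, q ∈ Per (famD h r G d) := by
  have hfun : ((powD G p : DiffM n N r) : N → N) = G^[p] := funext fun y => powD_apply G p y
  have hnd : NonDeg n (powD G p) y 1 (fun _ => chartAt (V n) y) := by
    refine ⟨le_rfl, ?_, rfl, fun _ => IsManifold.chart_mem_maximalAtlas y, ?_, ?_⟩
    · rw [Function.iterate_one, hfun]; exact hy
    · intro i hi
      interval_cases i
      · exact mem_chart_source (V n) y
      · rw [Function.iterate_one, hfun, hy]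
        exact mem_chart_source (V n) y
    · intro w hw hw1
      have h1 := hw1 0 one_pos
      rw [hfun] at h1
      have h2 := hhyp p hp hy (chartAt (V n) y) (IsManifold.chart_mem_maximalAtlas y)
        (mem_chart_source (V n) y)
      refine h2 (fun _ => w 0) ⟨‖w 0‖, fun _ => le_rfl⟩ (fun i => ?_) 0
      rw [zero_add, hw] at h1
      exact h1
  obtain ⟨U, hU, hGU, hper⟩ := GnrF.hPE n N r hr (powD G p) y 1 _ hnd O hO hyO
  obtain ⟨κ, hκ, hκU⟩ := Pool.Agent.TH80.CLX.fam_mem r hr (fun d => powD (famD h r G d) p)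
    (isFam_pow (famD_isFam h r G) p) y U hU (by rw [famD_zero]; exact hGU)
  refine ⟨κ, hκ, fun d hd => ?_⟩
  obtain ⟨q, hqO, hq⟩ := hper _ (hκU d hd)
  exact ⟨q, hqO, per_of_pow hp hq⟩

theorem omega_dense (r : ℕ∞) (hr : 1 ≤ r) {F : DiffM n N r} (hF : OmegaStable n N r F)
    {L : Set (Fin k)} {Φ : V k → N → N} {e : N → V m} {B : N → V m →L[ℝ] V m →L[ℝ] ℝ}
    (h : HypCR (n := n) L F Φ e B) : Omega F ⊆ closure (Per F) := by
  intro z₀ hz₀
  obtain ⟨U, hU, hFU, hconj⟩ := hF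
  obtain ⟨κ₀, hκ₀, hpers⟩ := h.persist hr
  obtain ⟨κ₁, hκ₁, hκU⟩ := Pool.Agent.TH80.CLX.fam_mem r hr (famD h.action r F)
    (famD_isFam h.action r F) z₀ U hU (by rw [famD_zero]; exact hFU)
  obtain ⟨κ, hκ, hκ0, hκ1⟩ : ∃ κ : ℝ, 0 < κ ∧ κ ≤ κ₀ ∧ κ ≤ κ₁ :=
    ⟨min κ₀ κ₁, lt_min hκ₀ hκ₁, min_le_left _ _, min_le_right _ _⟩
  have : SecondCountableTopology N := ChartedSpace.secondCountable_of_sigmaCompact (V n) N
  let _ : MetricSpace N := TopologicalSpace.metrizableSpaceMetric N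
  obtain ⟨R, hR1, hR2, hR3⟩ := Gnr.hBA (V k) inferInstance N
    (fun c => Per (famD h.action r F c))
    (fun c => {z | ‖c‖ < κ ∧ z ∈ CR (famD h.action r F c)}) (by
      intro c z hz _ O hO hzO U' hU' hcU'
      obtain ⟨hcκ, hzc⟩ := hz
      have hG := hpers c (hcκ.trans_le hκ0)
      -- a small ball
      obtain ⟨ε, hε, hball⟩ : ∃ ε : ℝ, 0 < ε ∧ ball c ε ⊆ U' ∩ ball 0 κ := by
        have h1 : U' ∩ ball (0 : V k) κ ∈ 𝓝 c :=
          (hU'.inter isOpen_ball).mem_nhds ⟨hcU', by rwa [mem_ball_zero_iff]⟩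
        obtain ⟨ε, hε, h2⟩ := Metric.mem_nhds_iff.1 h1
        exact ⟨ε, hε, h2⟩
      obtain ⟨c', hc', y, hyO, p, hp, hper⟩ := per_near r hr _ hG
        (conley (famD h.action r F c).continuous hzc) hε (hO.mem_nhds hzO)
      rw [famD_famD] at hper
      have hc1 : c' + c ∈ U' ∩ ball 0 κ := hball (by
        rw [mem_ball, dist_eq_norm, add_sub_cancel_right]; exact hc')
      have hc1' : ‖c' + c‖ < κ := by
        have := hc1.2
        rwa [mem_ball_zero_iff] at this
      have hst : OmegaStable n N r (famD h.action r F (c' + c)) :=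
        stable_near hU hconj (hκU _ (hc1'.trans_le hκ1))
      have hhyp := (Final.isolated_main hr hst).1 y ⟨p, hp, hper⟩
      obtain ⟨κ₂, hκ₂, hpp⟩ := per_persist hr h.action hp hper hhyp hO hyO
      refine ⟨c' + c, hc1.1, ball (c' + c) κ₂, isOpen_ball, mem_ball_self hκ₂, fun g hg => ?_⟩
      obtain ⟨q, hqO, hq⟩ := hpp (g - (c' + c)) (by
        rw [mem_ball, dist_eq_norm] at hg; exact hg)
      rw [famD_famD, sub_add_cancel] at hq
      exact ⟨q, hqO, hq⟩)
  have hdense : Dense (⋂ j, R j) := dense_iInter_of_isOpen_nat hR1 hR2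
  obtain ⟨c, hcb, hcR⟩ := hdense.exists_mem_open isOpen_ball
    (nonempty_ball.2 hκ : (ball (0 : V k) κ).Nonempty)
  have hcκ : ‖c‖ < κ := by rwa [mem_ball_zero_iff] at hcR
  have h1 := hR3 c (fun j => mem_iInter.1 hcb j)
  have h2 : Omega (famD h.action r F c) ⊆ closure (Per (famD h.action r F c)) :=
    fun x hx => h1 ⟨hcκ, omega_CR (famD h.action r F c).continuous hx⟩
  exact dense_of_conj F.continuous (famD h.action r F c).continuous
    (hconj _ (hκU c (hcκ.trans_le hκ1))) h2 hz₀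

/-- limits -/
theorem omega_dense_lim (r : ℕ∞) (hr : 1 ≤ r) {F : DiffM n N r} (hF : OmegaStable n N r F)
    (h : ∀ U : Set (DiffM n N r), IsOpen[strongTop n N r] U → F ∈ U → ∃ G ∈ U,
      ∃ (k m : ℕ) (L : Set (Fin k)) (Φ : V k → N → N) (e : N → V m)
        (B : N → V m →L[ℝ] V m →L[ℝ] ℝ), HypCR (n := n) L G Φ e B) :
    Omega F = closure (Per F) := by
  refine Subset.antisymm ?_ (closure_per_sub F)
  obtain ⟨U, hU, hFU, hconj⟩ := hF
  obtain ⟨G, hG, k, m, L, Φ, e, B, hyp⟩ := h U hU hFU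
  exact dense_of_conj F.continuous G.continuous (hconj G hG)
    (omega_dense r hr (stable_near hU hconj hG) hyp)

end main

end Pool.Agent.Helper16.OL
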