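import Mathlib
import Pool.Agent.Helper16.OL.Main

/-! Recurrent and nonwandering points are chain recurrent. -/

open scoped Topology ContDiff Manifold
open Set Metric Filter

noncomputable section

set_option linter.unusedSectionVars false

namespace Pool.Agent.Helper16.OL

open Pool.Agent.H718R2.G Pool.Agent.R774.Cl Pool.Agent.R774.ClStmt Pool.Agent.W564.SC

universe u

section
variable {N : Type u} [TopologicalSpace N] [T2Space N]

lemma chainRecOn_of_return {F : N → N} (hF : Continuous F) {K : Set N} {z : N} (hzK : z ∈ K)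
    (h : ∀ W ∈ 𝓝 z, ∃ m : ℕ, 1 ≤ m ∧ ∃ y ∈ W, F^[m] y ∈ W ∧
      ∀ i, 1 ≤ i → i < m → F^[i] y ∈ K) : ChainRecOn F K z := by
  intro W hW hd
  by_cases hfix : F z = z
  · refine ⟨1, fun _ => z, le_rfl, rfl, rfl, fun _ _ => hzK, fun _ _ => ?_⟩
    show (F z, z) ∈ W
    rw [hfix]
    exact hd z
  · -- small neighbourhoods
    have h1 : ∀ᶠ y in 𝓝 z, (F z, F y) ∈ W := by
      have h2 : Continuous fun y => (F z, F y) := continuous_const.prodMk hF
      exact (h2.tendsto z).eventually (hW.mem_nhds (hd (F z)))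
    have h2 : ∀ᶠ y in 𝓝 z, (y, z) ∈ W := by
      have h3 : Continuous fun y : N => (y, z) := continuous_id.prodMk continuous_const
      exact (h3.tendsto z).eventually (hW.mem_nhds (hd z))
    obtain ⟨A, B, hA, hB, hzA, hzB, hAB⟩ := t2_separation hfix
    have h3 : ∀ᶠ y in 𝓝 z, F y ∈ A := (hF.tendsto z).eventually (hA.mem_nhds hzA)
    have h4 : ∀ᶠ y in 𝓝 z, y ∈ B := hB.mem_nhds hzB
    obtain ⟨m, hm, y, ⟨⟨⟨hy1, -⟩, hy3⟩, -⟩, ⟨⟨⟨-, hy2⟩, -⟩, hy4⟩, hK⟩ :=
      h {y | (((F z, F y) ∈ W ∧ (y, z) ∈ W) ∧ F y ∈ A) ∧ y ∈ B} (((h1.and h2).and h3).and h4)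
    have hm2 : 2 ≤ m := by
      by_contra hcon
      have : m = 1 := by omega
      subst this
      exact Set.disjoint_left.1 hAB hy3 hy4
    refine ⟨m, fun i => if i = 0 ∨ i = m then z else F^[i] y, hm, by simp, by simp, ?_, ?_⟩
    · intro i hi
      show (if i = 0 ∨ i = m then z else F^[i] y) ∈ K
      by_cases h5 : i = 0 ∨ i = m
      · rw [if_pos h5]; exact hzK
      · rw [if_neg h5]
        exact hK i (by omega) (by omega)
    · intro i hi
      show (F (if i = 0 ∨ i = m then z else F^[i] y),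
        if i + 1 = 0 ∨ i + 1 = m then z else F^[i + 1] y) ∈ W
      by_cases h5 : i = 0
      · subst h5
        rw [if_pos (Or.inl rfl), if_neg (by omega)]
        exact hy1
      · rw [if_neg (by omega)]
        by_cases h6 : i + 1 = m
        · rw [if_pos (Or.inr h6), ← Function.iterate_succ_apply' F, Nat.succ_eq_add_one, h6]
          exact hy2
        · rw [if_neg (by omega), ← Function.iterate_succ_apply' F]
          exact hd _

lemma chainRecOn_univ_of_nonWand {F : N → N} (hF : Continuous F) {z : N} (hz : NonWand F z) :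
    ChainRecOn F univ z := by
  refine chainRecOn_of_return hF (mem_univ z) fun W hW => ?_
  obtain ⟨m, hm, y, hy, hy'⟩ := hz W hW
  exact ⟨m, hm, y, hy, hy', fun _ _ _ => mem_univ _⟩

lemma zpow_natCast_apply (F : N ≃ₜ N) (m : ℕ) (z : N) : (F ^ (m : ℤ)) z = F^[m] z := by
  rw [zpow_natCast]
  induction m with
  | zero => rfl
  | succ m ih => rw [pow_succ', Function.iterate_succ_apply', ← ih]; rfl

lemma return_of_isRec {F : N ≃ₜ N} {z : N} (hz : IsRec F z) (W : Set N) (hW : W ∈ 𝓝 z) :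
    ∃ k : ℤ, k ≠ 0 ∧ (F ^ k) z ∈ W := by
  by_contra hcon
  push Not at hcon
  apply hz
  have key : ∀ m : ℤ, ∃ A : Set N, IsOpen A ∧ (fun m : ℤ => (F ^ m) z) ⁻¹' A = {m} := by
    intro m
    refine ⟨(F ^ (-m)) ⁻¹' interior W, isOpen_interior.preimage (F ^ (-m)).continuous, ?_⟩
    ext l
    simp only [mem_preimage, mem_singleton_iff]
    have e1 : (F ^ (-m)) ((F ^ l) z) = (F ^ (l - m)) z := by
      rw [sub_eq_neg_add, zpow_add]
      rfl
    rw [e1]
    constructor
    · intro h1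
      by_contra h2
      exact hcon (l - m) (sub_ne_zero.2 h2) (interior_subset h1)
    · intro h1
      rw [h1, sub_self, zpow_zero]
      exact mem_interior_iff_mem_nhds.2 hW
  refine ⟨⟨?_⟩, ?_⟩
  · refine le_antisymm ?_ ?_
    · rw [← continuous_iff_le_induced]
      exact continuous_of_discreteTopology
    · intro S _
      rw [isOpen_induced_iff]
      choose A hA hA' using key
      refine ⟨⋃ m ∈ S, A m, isOpen_biUnion fun m _ => hA m, ?_⟩
      rw [preimage_iUnion₂]
      ext l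
      simp [hA']
  · intro a b hab
    by_contra hne
    have h1 : (F ^ (b - a)) z = z := by
      have e1 : (F ^ (-a)) ((F ^ b) z) = (F ^ (b - a)) z := by
        rw [sub_eq_neg_add, zpow_add]
        rfl
      have e2 : (F ^ (-a)) ((F ^ a) z) = z := by
        have : (F ^ (-a)) ((F ^ a) z) = (F ^ (-a) * F ^ a) z := rfl
        rw [this, ← zpow_add, neg_add_cancel, zpow_zero]
        rfl
      rw [← e1, ← show (F ^ a) z = (F ^ b) z from hab, e2]
    exact hcon (b - a) (sub_ne_zero.2 (Ne.symm hne)) (h1.symm ▸ mem_of_mem_nhds hW)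

lemma chainRecOn_of_isRec (F : N ≃ₜ N) {K : Set N} (h1 : ∀ x ∈ K, F x ∈ K)
    (h2 : ∀ x ∈ K, F.symm x ∈ K) {z : N} (hzK : z ∈ K) (hz : IsRec F z) : ChainRecOn F K z := by
  have hK : ∀ (y : N) (i : ℕ), y ∈ K → F^[i] y ∈ K := by
    intro y i hy
    induction i with
    | zero => exact hy
    | succ i ih => rw [Function.iterate_succ_apply']; exact h1 _ ih
  refine chainRecOn_of_return F.continuous hzK fun W hW => ?_
  obtain ⟨k, hk, hkW⟩ := return_of_isRec hz W hW
  rcases lt_or_gt_of_ne hk with h3 | h3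
  · obtain ⟨m, hm⟩ : ∃ m : ℕ, k = -(m : ℤ) := ⟨k.natAbs, by omega⟩
    subst hm
    have h4 : F^[m] ((F ^ (-(m : ℤ))) z) = z := by
      rw [← zpow_natCast_apply]
      have : (F ^ (m : ℤ)) ((F ^ (-(m : ℤ))) z) = (F ^ (m : ℤ) * F ^ (-(m : ℤ))) z := rfl
      rw [this, ← zpow_add, add_neg_cancel, zpow_zero]
      rfl
    have h5 : ∀ m : ℕ, (F ^ (-(m : ℤ))) z ∈ K := by
      intro m
      induction m with
      | zero => simpa using hzK
      | succ m ih =>
        have : (F ^ (-((m + 1 : ℕ) : ℤ))) z = F.symm ((F ^ (-(m : ℤ))) z) := by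
          have e1 : (-((m + 1 : ℕ) : ℤ)) = (-1 : ℤ) + (-(m : ℤ)) := by push_cast; ring
          rw [e1, zpow_add, zpow_neg_one]
          rfl
        rw [this]
        exact h2 _ ih
    refine ⟨m, by omega, _, hkW, by rw [h4]; exact mem_of_mem_nhds hW, fun i _ _ => hK _ _ (h5 m)⟩
  · obtain ⟨m, hm⟩ : ∃ m : ℕ, k = (m : ℤ) := ⟨k.natAbs, by omega⟩
    subst hm
    rw [zpow_natCast_apply] at hkW
    exact ⟨m, by omega, z, mem_of_mem_nhds hW, hkW, fun i _ _ => hK _ _ hzK⟩

end

end Pool.Agent.Helper16.OL
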