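import Mathlib
import Pool.Agent.Helper16.OL.Rec

/-! Maps `y ↦ ψ (α y) y` for a flow `ψ`. -/

open scoped Topology ContDiff Manifold
open Set Metric Filter

noncomputable section

set_option linter.unusedSectionVars false

namespace Pool.Agent.Helper16.OL

open Pool.Agent.H718R2.G Pool.Agent.R774.Cl Pool.Agent.R774.ClStmt Pool.Agent.W564.SC

universe u

/-- a real number as an element of `ℝ¹` -/
def toV (t : ℝ) : V 1 := WithLp.toLp 2 (fun _ => t)

lemma toV_apply (t : ℝ) (i : Fin 1) : toV t i = t := rfl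

lemma toV_coord (t : V 1) : toV (t 0) = t := by
  ext i
  rw [toV_apply, Subsingleton.elim i 0]

lemma toV_cont : Continuous toV := by
  unfold toV
  fun_prop

variable {n m : ℕ} {N : Type u} [TopologicalSpace N] [ChartedSpace (V n) N]

lemma leafMap_one {g : ℝ → ℝ} (h1 : Continuous g) (h2 : Monotone g) (h3 : g 0 = 0) :
    LeafMap (univ : Set (Fin 1)) (fun t => toV (g (t 0))) where
  line := fun i _ => ⟨g, h1, h2, h3, fun t => by rw [toV_apply, Subsingleton.elim i 0]⟩
  circ := fun i hi => absurd (mem_univ i) hi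

variable [IsManifold (𝓡 n) ∞ N]

lemma leaf_time {ψ : V 1 → N → N} (hψ : IsAction 1 n N ψ) [CompactSpace N] {α : N → V 1}
    (hα : Continuous α) {F : N → N} (hFinj : Function.Injective F) {O : Set N}
    (hOψ : ∀ t, ∀ y ∈ O, ψ t y ∈ O) (hF : ∀ y ∈ O, F y = ψ (α y) y) {y : N} (hy : y ∈ O) :
    ∃ τ : V 1 → V 1, LeafMap univ τ ∧ ∀ t, F (ψ t y) = ψ (τ t) (F y) := by
  obtain ⟨a, ha⟩ : ∃ a : ℝ → ℝ, a = fun s => α (ψ (toV s) y) 0 := ⟨_, rfl⟩
  have hψc : Continuous fun q : V 1 × N => ψ q.1 q.2 := hψ.smooth.continuous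
  have hac : Continuous a := by
    rw [ha]
    have h1 : Continuous fun s : ℝ => ψ (toV s) y := hψc.comp (toV_cont.prodMk continuous_const)
    have h2 : Continuous fun v : V 1 => v 0 := by fun_prop
    exact h2.comp (hα.comp h1)
  -- boundedness
  obtain ⟨M, hM⟩ : ∃ M : ℝ, ∀ s, |a s| ≤ M := by
    have h2 : Continuous fun v : V 1 => v 0 := by fun_prop
    obtain ⟨M, hM⟩ := (isCompact_range (h2.comp hα)).isBounded.exists_norm_le
    refine ⟨M, fun s => ?_⟩
    rw [ha]
    exact hM _ ⟨ψ (toV s) y, rfl⟩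
  have hadd : ∀ s t : ℝ, toV s + toV t = toV (s + t) := fun s t => rfl
  have hαs : ∀ s, α (ψ (toV s) y) = toV (a s) := fun s => by rw [ha]; exact (toV_coord _).symm
  have hFs : ∀ s, F (ψ (toV s) y) = ψ (toV (s + a s)) y := by
    intro s
    rw [hF _ (hOψ _ _ hy), hαs, ← hψ.add, hadd, add_comm]
  obtain ⟨g, hg⟩ : ∃ g : ℝ → ℝ, g = fun s => s + a s - a 0 := ⟨_, rfl⟩
  have hgc : Continuous g := by rw [hg]; exact (continuous_id.add hac).sub continuous_const
  have hginj : Function.Injective g := by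
    intro s t hst
    have h1 : s + a s = t + a t := by
      have : s + a s - a 0 = t + a t - a 0 := by simpa [hg] using hst
      linarith
    have h2 : ψ (toV s) y = ψ (toV t) y := by
      apply hFinj
      rw [hFs, hFs, h1]
    have h3 : a s = a t := by rw [ha]; show α (ψ (toV s) y) 0 = α (ψ (toV t) y) 0; rw [h2]
    linarith
  have hgm : Monotone g := by
    rcases hgc.strictMono_of_inj hginj with h1 | h1
    · exact h1.monotone
    · exfalso
      have hM0 : 0 ≤ M := (abs_nonneg _).trans (hM 0)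
      have h2 : g (2 * M + 1) < g 0 := h1 (by linarith)
      have h3 := abs_le.1 (hM (2 * M + 1))
      have h4 := abs_le.1 (hM 0)
      rw [hg] at h2
      simp only at h2
      linarith [h3.1, h4.2]
  refine ⟨fun t => toV (g (t 0)), leafMap_one hgc hgm (by rw [hg]; simp), fun t => ?_⟩
  have h1 : ψ t y = ψ (toV (t 0)) y := by rw [toV_coord]
  have h2 : F y = ψ (toV (a 0)) y := by
    have h3 := hFs 0
    have h4 : ψ (toV 0) y = y := hψ.zero y
    rw [h4, zero_add] at h3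
    exact h3
  rw [h1, hFs, h2, ← hψ.add, hadd]
  congr 2
  rw [hg]
  ring

/-- the derivative of `y ↦ ψ (α y) y` -/
lemma dr_time {ψ : V 1 → N → N} (hψ : IsAction 1 n N ψ) {α : N → V 1}
    (hα : ContMDiff (𝓡 n) (𝓡 1) 1 α) (x : N) (v : V n) :
    ∃ s : V 1, dr (V n) (V n) (fun y => ψ (α y) y) x v =
      dr (V n) (V n) (ψ (α x)) x v + orb (n := n) ψ (ψ (α x) x) s := by
  have hα1 : MDifferentiableAt (𝓡 n) (𝓡 1) α x := hα.mdifferentiable one_ne x
  have hψ1 : ∀ q : V 1 × N, MDifferentiableAt ((𝓡 1).prod (𝓡 n)) (𝓡 n)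
      (fun q : V 1 × N => ψ q.1 q.2) q := fun q => hψ.smooth.mdifferentiable (by simp) q
  refine ⟨dr (V n) (V 1) α x v, ?_⟩
  have h1 : mfderiv (𝓡 n) (𝓡 n) (fun y => ψ (α y) y) x =
      (mfderiv ((𝓡 1).prod (𝓡 n)) (𝓡 n) (fun q : V 1 × N => ψ q.1 q.2) (α x, x)).comp
        (mfderiv (𝓡 n) ((𝓡 1).prod (𝓡 n)) (fun y => (α y, y)) x) :=
    mfderiv_comp x (hψ1 _) (hα1.prodMk mdifferentiableAt_id)
  have h2 : mfderiv (𝓡 n) ((𝓡 1).prod (𝓡 n)) (fun y => (α y, y)) x v =
      (mfderiv (𝓡 n) (𝓡 1) α x v, v) := by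
    have h3 := hα1.mfderiv_prod (mdifferentiableAt_id (I := 𝓡 n) (x := x))
    have h4 : (fun y => (α y, y)) = fun y => (α y, id y) := rfl
    rw [h4, h3, mfderiv_id]
    rfl
  have h5 : (mfderiv (𝓡 n) (𝓡 n) (fun y => ψ (α y) y) x : V n →L[ℝ] V n) v =
      (mfderiv ((𝓡 1).prod (𝓡 n)) (𝓡 n) (fun q : V 1 × N => ψ q.1 q.2) (α x, x) :
        V 1 × V n →L[ℝ] V n) ((dr (V n) (V 1) α x v, v) : V 1 × V n) := by
    have h6 := congrArg (fun T : V n →L[ℝ] V n => T v) h1
    refine h6.trans ?_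
    exact congrArg (mfderiv ((𝓡 1).prod (𝓡 n)) (𝓡 n) (fun q : V 1 × N => ψ q.1 q.2) (α x, x) :
        V 1 × V n →L[ℝ] V n) h2
  have h12 := mfderiv_prod_eq_add_apply (v := ((dr (V n) (V 1) α x v, v) : V 1 × V n))
    (hψ1 (α x, x))
  -- the derivative in the direction of the flow
  have h6 : (fun z : V 1 => ψ z x) = fun z => (fun s => ψ s (ψ (α x) x)) (z - α x) := by
    funext z
    show ψ z x = ψ (z - α x) (ψ (α x) x)
    rw [← hψ.add, sub_add_cancel]
  have h7 : MDifferentiableAt (𝓡 1) (𝓡 n) (fun s => ψ s (ψ (α x) x)) ((α x) - (α x)) := by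
    have h8 : MDifferentiableAt (𝓡 1) ((𝓡 1).prod (𝓡 n)) (fun s : V 1 => (s, ψ (α x) x))
        ((α x) - (α x)) := mdifferentiableAt_id.prodMk mdifferentiableAt_const
    exact (hψ1 _).comp _ h8
  have h9 : DifferentiableAt ℝ (fun z : V 1 => z - α x) (α x) := by fun_prop
  have h10 : mfderiv (𝓡 1) (𝓡 n) (fun z : V 1 => ψ z x) (α x) =
      (mfderiv (𝓡 1) (𝓡 n) (fun s => ψ s (ψ (α x) x)) ((α x) - (α x))).comp
        (mfderiv (𝓡 1) (𝓡 1) (fun z : V 1 => z - α x) (α x)) := by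
    rw [h6]
    exact mfderiv_comp (g := fun s => ψ s (ψ (α x) x)) (f := fun z : V 1 => z - α x) (α x) h7
      h9.mdifferentiableAt
  have h11 : mfderiv (𝓡 1) (𝓡 1) (fun z : V 1 => z - α x) (α x) = ContinuousLinearMap.id ℝ (V 1) := by
    rw [mfderiv_eq_fderiv]
    rw [fderiv_sub_const, fderiv_fun_id]
  have h13 : dr (V 1) (V n) (fun z : V 1 => ψ z x) (α x) (dr (V n) (V 1) α x v) =
      orb (n := n) ψ (ψ (α x) x) (dr (V n) (V 1) α x v) := by
    unfold orb
    have h14 : dr (V 1) (V n) (fun z : V 1 => ψ z x) (α x) =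
      (dr (V 1) (V n) (fun s => ψ s (ψ (α x) x)) ((α x) - (α x))).comp
        (ContinuousLinearMap.id ℝ (V 1)) := by
      rw [← h11]
      exact h10
    rw [h14, sub_self]
    rfl
  calc dr (V n) (V n) (fun y => ψ (α y) y) x v
      = dr (V 1) (V n) (fun z : V 1 => ψ z x) (α x) (dr (V n) (V 1) α x v) +
          dr (V n) (V n) (ψ (α x)) x v := h5.trans h12
    _ = dr (V n) (V n) (ψ (α x)) x v +
          dr (V 1) (V n) (fun z : V 1 => ψ z x) (α x) (dr (V n) (V 1) α x v) := add_comm _ _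
    _ = _ := by rw [h13]

/-- The closed set `K` is invariant under the smooth flow `ψ`, it contains no fixed points of `ψ`, and
it is a hyperbolic set of `ψ`: the quadratic form `Q = quad e B` (of any signature) does not change in
the direction of the flow and increases strictly under `Dψ_t`, `t > 0`, on all vectors at the points of
`K` which are not tangent to the flow. -/
structure HypFlow (ψ : V 1 → N → N) (K : Set N) (e : N → V m)
    (B : N → V m →L[ℝ] V m →L[ℝ] ℝ) : Prop where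
  action : IsAction 1 n N ψ
  closed : IsClosed K
  inv : ∀ t, ∀ x ∈ K, ψ t x ∈ K
  free : ∀ x ∈ K, ∀ s, orb (n := n) ψ x s = 0 → s = 0
  smooth : ContMDiff (𝓡 n) (𝓡 m) 1 e
  cont : Continuous B
  basic : ∀ x ∈ K, ∀ (v : V n) (s : V 1), quad e B x (v + orb ψ x s) = quad e B x v
  incr : ∀ x ∈ K, ∀ t : V 1, 0 < t 0 → ∀ v : V n, (∀ s, v ≠ orb ψ x s) →
    quad e B x v < quad e B (ψ t x) (dr (V n) (V n) (ψ t) x v)

theorem hypLeaves_time [CompactSpace N] {ψ : V 1 → N → N} {K : Set N} {e : N → V m}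
    {B : N → V m →L[ℝ] V m →L[ℝ] ℝ} (h : HypFlow (n := n) ψ K e B) {α : N → V 1}
    (hα : ContMDiff (𝓡 n) (𝓡 1) 1 α) (hpos : ∀ x ∈ K, 0 < α x 0) {F : N → N}
    (hFinj : Function.Injective F) {O : Set N} (hO : IsOpen O) (hKO : K ⊆ O)
    (hOψ : ∀ t, ∀ y ∈ O, ψ t y ∈ O) (hF : ∀ y ∈ O, F y = ψ (α y) y) :
    HypLeaves (n := n) (univ : Set (Fin 1)) F ψ K e B where
  action := h.action
  closed := h.closed
  inv := fun x hx => by rw [hF x (hKO hx)]; exact h.inv _ x hx
  leaves := by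
    refine ⟨O, hO, hKO, fun y _ v hv _ => ?_, fun y hy => leaf_time h.action hα.continuous hFinj hOψ hF hy⟩
    have hv0 : v = 0 := by
      ext i
      exact hv i (mem_univ i)
    rw [hv0, h.action.zero]
  free := h.free
  smooth := h.smooth
  cont := h.cont
  basic := h.basic
  incr := by
    intro x hx v hv
    have h1 : F =ᶠ[𝓝 x] fun y => ψ (α y) y := by
      filter_upwards [hO.mem_nhds (hKO hx)] with y hy
      exact hF y hy
    rw [dr_congr h1, hF x (hKO hx)]
    obtain ⟨s, hs⟩ := dr_time h.action hα x v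
    rw [hs, h.basic _ (h.inv _ x hx)]
    exact h.incr x hx _ (hpos x hx) v hv

end Pool.Agent.Helper16.OL
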