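import Mathlib
import Pool.Agent.Helper16.OL.Time
import Pool.Agent.Helper16.OL.PersistCR
import Pool.Agent.Y504.CO.Stm6

/-! Derivatives along periodic orbits; nondegenerate periodic orbits. -/

open scoped Topology ContDiff Manifold
open Set Metric Filter

noncomputable section

set_option linter.unusedSectionVars false

namespace Pool.Agent.Helper16.OL

open Pool.Agent.H718R2.G Pool.Agent.R774.Cl Pool.Agent.R774.ClStmt Pool.Agent.W564.SC
open Pool.Agent.R774.OS Pool.Agent.TH80.OMS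
open Pool.Agent.Y504.CO (NonDeg)

universe u

variable {k n m : ℕ} {N : Type u} [TopologicalSpace N] [ChartedSpace (V n) N]
  [IsManifold (𝓡 n) ∞ N]

lemma act_md {Φ : V k → N → N} (h : IsAction k n N Φ) (c : V k) (y : N) :
    MDifferentiableAt (𝓡 n) (𝓡 n) (Φ c) y := by
  have hs : ∀ q : V k × N, MDifferentiableAt ((𝓡 k).prod (𝓡 n)) (𝓡 n)
      (fun q : V k × N => Φ q.1 q.2) q := fun q => h.smooth.mdifferentiable (by simp) q
  have h2 : MDifferentiableAt (𝓡 n) ((𝓡 k).prod (𝓡 n)) (fun y : N => (c, y)) y :=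
    mdifferentiableAt_const.prodMk mdifferentiableAt_id
  exact (hs _).comp _ h2

/-- the derivative of `y ↦ Φ (α y) y` -/
lemma dr_move {Φ : V k → N → N} (hΦ : IsAction k n N Φ) {α : N → V k} {x : N}
    (hα1 : MDifferentiableAt (𝓡 n) (𝓡 k) α x) (v : V n) :
    dr (V n) (V n) (fun y => Φ (α y) y) x v =
      dr (V n) (V n) (Φ (α x)) x v + orb (n := n) Φ (Φ (α x) x) (dr (V n) (V k) α x v) := by
  have hΦ1 : ∀ q : V k × N, MDifferentiableAt ((𝓡 k).prod (𝓡 n)) (𝓡 n)
      (fun q : V k × N => Φ q.1 q.2) q := fun q => hΦ.smooth.mdifferentiable (by simp) q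
  have h1 : mfderiv (𝓡 n) (𝓡 n) (fun y => Φ (α y) y) x =
      (mfderiv ((𝓡 k).prod (𝓡 n)) (𝓡 n) (fun q : V k × N => Φ q.1 q.2) (α x, x)).comp
        (mfderiv (𝓡 n) ((𝓡 k).prod (𝓡 n)) (fun y => (α y, y)) x) :=
    mfderiv_comp x (hΦ1 _) (hα1.prodMk mdifferentiableAt_id)
  have h2 : mfderiv (𝓡 n) ((𝓡 k).prod (𝓡 n)) (fun y => (α y, y)) x v =
      (mfderiv (𝓡 n) (𝓡 k) α x v, v) := by
    have h3 := hα1.mfderiv_prod (mdifferentiableAt_id (I := 𝓡 n) (x := x))
    have h4 : (fun y => (α y, y)) = fun y => (α y, id y) := rfl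
    rw [h4, h3, mfderiv_id]
    rfl
  have h5 : (mfderiv (𝓡 n) (𝓡 n) (fun y => Φ (α y) y) x : V n →L[ℝ] V n) v =
      (mfderiv ((𝓡 k).prod (𝓡 n)) (𝓡 n) (fun q : V k × N => Φ q.1 q.2) (α x, x) :
        V k × V n →L[ℝ] V n) ((dr (V n) (V k) α x v, v) : V k × V n) := by
    have h6 := congrArg (fun T : V n →L[ℝ] V n => T v) h1
    refine h6.trans ?_
    exact congrArg (mfderiv ((𝓡 k).prod (𝓡 n)) (𝓡 n) (fun q : V k × N => Φ q.1 q.2) (α x, x) :
        V k × V n →L[ℝ] V n) h2
  have h12 := mfderiv_prod_eq_add_apply (v := ((dr (V n) (V k) α x v, v) : V k × V n))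
    (hΦ1 (α x, x))
  -- the derivative in the direction of the orbit
  have h6 : (fun z : V k => Φ z x) = fun z => (fun s => Φ s (Φ (α x) x)) (z - α x) := by
    funext z
    show Φ z x = Φ (z - α x) (Φ (α x) x)
    rw [← hΦ.add, sub_add_cancel]
  have h7 : MDifferentiableAt (𝓡 k) (𝓡 n) (fun s => Φ s (Φ (α x) x)) ((α x) - (α x)) := by
    have h8 : MDifferentiableAt (𝓡 k) ((𝓡 k).prod (𝓡 n)) (fun s : V k => (s, Φ (α x) x))
        ((α x) - (α x)) := mdifferentiableAt_id.prodMk mdifferentiableAt_const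
    exact (hΦ1 _).comp _ h8
  have h9 : DifferentiableAt ℝ (fun z : V k => z - α x) (α x) := by fun_prop
  have h10 : mfderiv (𝓡 k) (𝓡 n) (fun z : V k => Φ z x) (α x) =
      (mfderiv (𝓡 k) (𝓡 n) (fun s => Φ s (Φ (α x) x)) ((α x) - (α x))).comp
        (mfderiv (𝓡 k) (𝓡 k) (fun z : V k => z - α x) (α x)) := by
    rw [h6]
    exact mfderiv_comp (g := fun s => Φ s (Φ (α x) x)) (f := fun z : V k => z - α x) (α x) h7
      h9.mdifferentiableAt
  have h11 : mfderiv (𝓡 k) (𝓡 k) (fun z : V k => z - α x) (α x) = ContinuousLinearMap.id ℝ (V k) := by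
    rw [mfderiv_eq_fderiv]
    rw [fderiv_sub_const, fderiv_fun_id]
  have h13 : dr (V k) (V n) (fun z : V k => Φ z x) (α x) (dr (V n) (V k) α x v) =
      orb (n := n) Φ (Φ (α x) x) (dr (V n) (V k) α x v) := by
    unfold orb
    have h14 : dr (V k) (V n) (fun z : V k => Φ z x) (α x) =
      (dr (V k) (V n) (fun s => Φ s (Φ (α x) x)) ((α x) - (α x))).comp
        (ContinuousLinearMap.id ℝ (V k)) := by
      rw [← h11]
      exact h10
    rw [h14, sub_self]
    rfl
  calc dr (V n) (V n) (fun y => Φ (α y) y) x v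
      = dr (V k) (V n) (fun z : V k => Φ z x) (α x) (dr (V n) (V k) α x v) +
          dr (V n) (V n) (Φ (α x)) x v := h5.trans h12
    _ = dr (V n) (V n) (Φ (α x)) x v +
          dr (V k) (V n) (fun z : V k => Φ z x) (α x) (dr (V n) (V k) α x v) := add_comm _ _
    _ = _ := by rw [h13]

lemma iter_md {g : N → N} (hg : MDifferentiable (𝓡 n) (𝓡 n) g) (i : ℕ) :
    MDifferentiable (𝓡 n) (𝓡 n) (g^[i]) := by
  induction i with
  | zero => exact mdifferentiable_id
  | succ i ih =>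
    rw [Function.iterate_succ']
    exact hg.comp ih

lemma dr_iter_succ {g : N → N} (hg : MDifferentiable (𝓡 n) (𝓡 n) g) (i : ℕ) (y : N) (v : V n) :
    dr (V n) (V n) (g^[i + 1]) y v = dr (V n) (V n) g (g^[i] y) (dr (V n) (V n) (g^[i]) y v) := by
  have h1 : g^[i + 1] = fun y => g (g^[i] y) := by
    rw [Function.iterate_succ']
    rfl
  rw [h1, dr_comp (hg _) (iter_md hg i y)]
  rfl

lemma dr_iter_zero (g : N → N) (y : N) (v : V n) : dr (V n) (V n) (g^[0]) y v = v := by
  have : mfderiv (𝓡 n) (𝓡 n) (g^[0]) y = ContinuousLinearMap.id ℝ (V n) := by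
    rw [Function.iterate_zero]
    exact mfderiv_id
  show mfderiv (𝓡 n) (𝓡 n) (g^[0]) y v = v
  rw [this]
  rfl

/-- nondegenerate periodic orbits in terms of the derivative -/
lemma nonDeg_of_dr {g : N → N} (hg : ContMDiff (𝓡 n) (𝓡 n) 1 g) {y : N} {p : ℕ} (hp : 1 ≤ p)
    (hy : g^[p] y = y) (h : ∀ v : V n, dr (V n) (V n) (g^[p]) y v = v → v = 0) :
    NonDeg n g y p (fun i => chartAt (V n) (g^[i] y)) := by
  have hgd : MDifferentiable (𝓡 n) (𝓡 n) g := hg.mdifferentiable one_ne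
  refine ⟨hp, hy, ?_, fun _ => IsManifold.chart_mem_maximalAtlas _,
    fun i _ => mem_chart_source (V n) _, fun w hw hw1 => ?_⟩
  · show chartAt (V n) (g^[p] y) = chartAt (V n) (g^[0] y)
    rw [hy]
    rfl
  · obtain ⟨v₀, hv₀⟩ := th_surj (E := V n) (mem_extChartAt_source (I := 𝓡 n) y) (w 0)
    have key : ∀ i ≤ p, w i = th (g^[i] y) (g^[i] y) (dr (V n) (V n) (g^[i]) y v₀) := by
      intro i
      induction i with
      | zero =>
        intro _
        rw [dr_iter_zero]
        exact hv₀.symm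
      | succ i ih =>
        intro hi
        have h1 := ih (by omega)
        have h2 := hw1 i (by omega)
        have h3 := chart_comp hg (a := g^[i] y) (b := g^[i + 1] y) (x := g^[i] y)
          (mem_extChartAt_source (I := 𝓡 n) _) (by
            rw [← Function.iterate_succ_apply' g]
            exact mem_extChartAt_source (I := 𝓡 n) _) (dr (V n) (V n) (g^[i]) y v₀)
        rw [← h1, ← dr_iter_succ hgd, ← Function.iterate_succ_apply' g] at h3
        exact h2.trans h3
    have h1 := key p le_rfl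
    rw [hw, hy, ← hv₀] at h1
    have h2 : th y y (dr (V n) (V n) (g^[p]) y v₀ - v₀) = 0 := by
      rw [map_sub, ← h1, sub_self]
    have h3 := th_inj (mem_extChartAt_source (I := 𝓡 n) y) h2
    have h4 := h v₀ (sub_eq_zero.1 h3)
    rw [← hv₀, h4, map_zero]

/-- fixed vectors of the derivative at a periodic point are tangent to the orbit -/
lemma fixed_tangent {F : N → N} (hg : MDifferentiable (𝓡 n) (𝓡 n) F)
    {Φ : V k → N → N} {e : N → V m} {B : N → V m →L[ℝ] V m →L[ℝ] ℝ} {y : N} {p : ℕ} (hp : 1 ≤ p)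
    (hy : F^[p] y = y)
    (htang : ∀ i s, ∃ s' : V k, dr (V n) (V n) F (F^[i] y) (orb (n := n) Φ (F^[i] y) s) =
      orb (n := n) Φ (F^[i + 1] y) s')
    (hincr : ∀ i, ∀ v : V n, (∀ s, v ≠ orb Φ (F^[i] y) s) →
      quad e B (F^[i] y) v < quad e B (F^[i + 1] y) (dr (V n) (V n) F (F^[i] y) v)) {v : V n}
    (hv : dr (V n) (V n) (F^[p]) y v = v) : ∃ s, v = orb (n := n) Φ y s := by
  by_contra hcon
  push Not at hcon
  have h1 : ∀ i ≤ p, ∀ s, dr (V n) (V n) (F^[i]) y v ≠ orb (n := n) Φ (F^[i] y) s := by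
    intro i hi s hs
    have h2 : ∀ j, i ≤ j → ∃ s', dr (V n) (V n) (F^[j]) y v = orb (n := n) Φ (F^[j] y) s' := by
      intro j hj
      induction j, hj using Nat.le_induction with
      | base => exact ⟨s, hs⟩
      | succ j hj ih =>
        obtain ⟨s', hs'⟩ := ih
        rw [dr_iter_succ hg, hs']
        exact htang j s'
    obtain ⟨s', hs'⟩ := h2 p hi
    rw [hv, hy] at hs'
    exact hcon s' hs'
  have h2 : ∀ i < p, quad e B y v < quad e B (F^[i + 1] y) (dr (V n) (V n) (F^[i + 1]) y v) := by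
    intro i
    induction i with
    | zero =>
      intro _
      have h3 := hincr 0 v hcon
      rw [dr_iter_succ hg, dr_iter_zero]
      exact h3
    | succ i ih =>
      intro hi
      refine (ih (by omega)).trans ?_
      rw [dr_iter_succ hg (i + 1)]
      exact hincr (i + 1) _ (h1 (i + 1) (by omega))
  have h3 := h2 (p - 1) (by omega)
  rw [Nat.sub_add_cancel hp, hv, hy] at h3
  exact lt_irrefl _ h3

end Pool.Agent.Helper16.OL
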