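import Mathlib
import Pool.Agent.Helper16.OL.G1

/-! A perturbation along the leaves which makes a periodic orbit nondegenerate. -/

open scoped Topology ContDiff Manifold
open Set Metric Filter

noncomputable section

set_option linter.unusedSectionVars false

namespace Pool.Agent.Helper16.OL

open Pool.Agent.H718R2.G Pool.Agent.R774.Cl Pool.Agent.R774.ClStmt Pool.Agent.W564.SC
open Pool.Agent.R774.OS Pool.Agent.TH80.OMS
open Pool.Agent.Y504.CO (NonDeg)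

universe u

variable {k n m : ℕ} {N : Type u} [TopologicalSpace N] [ChartedSpace (V n) N]
  [IsManifold (𝓡 n) ∞ N]

lemma exists_bump [T2Space N] {y₀ : N} {X₀ : V n} (hX : X₀ ≠ 0) {W : Set N} (hW : W ∈ 𝓝 y₀) :
    ∃ ρ : N → ℝ, ContMDiff (𝓡 n) 𝓘(ℝ, ℝ) ∞ ρ ∧ ρ y₀ = 0 ∧
      (∀ y, y ∉ W → ρ =ᶠ[𝓝 y] fun _ => 0) ∧ dr (V n) ℝ ρ y₀ X₀ ≠ 0 := by
  obtain ⟨f, -, hf⟩ := (SmoothBumpFunction.nhds_basis_tsupport (I := 𝓡 n) y₀).mem_iff.1 hW
  obtain ⟨z₀, hz₀⟩ : ∃ z₀, z₀ = th (E := V n) y₀ y₀ X₀ := ⟨_, rfl⟩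
  have hz0 : z₀ ≠ 0 := fun h => hX (th_inj (mem_extChartAt_source (I := 𝓡 n) y₀) (hz₀ ▸ h))
  obtain ⟨ℓ, hℓ⟩ : ∃ ℓ : V n →L[ℝ] ℝ, ℓ z₀ ≠ 0 := by
    refine ⟨innerSL ℝ z₀, ?_⟩
    rw [innerSL_apply_apply, real_inner_self_eq_norm_sq]
    have := norm_pos_iff.2 hz0
    positivity
  obtain ⟨g, hg⟩ : ∃ g : N → ℝ, g = fun y => ℓ (extChartAt (𝓡 n) y₀ y - extChartAt (𝓡 n) y₀ y₀) :=
    ⟨_, rfl⟩
  have hgs : ContMDiffOn (𝓡 n) 𝓘(ℝ, ℝ) ∞ g (chartAt (V n) y₀).source := by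
    have h1 : ContMDiffOn (𝓡 n) 𝓘(ℝ, V n) ∞ (extChartAt (𝓡 n) y₀) (chartAt (V n) y₀).source :=
      contMDiffOn_extChartAt
    have h2 : ContDiff ℝ ∞ (fun z : V n => ℓ (z - extChartAt (𝓡 n) y₀ y₀)) := by fun_prop
    rw [hg]
    exact h2.contMDiff.comp_contMDiffOn h1
  refine ⟨fun x => f x • g x, f.contMDiff_smul hgs, ?_, fun y hy => ?_, ?_⟩
  · rw [hg]
    simp
  · have h1 : y ∉ tsupport f := fun h => hy (hf h)
    have h2 : (f : N → ℝ) =ᶠ[𝓝 y] 0 := notMem_tsupport_iff_eventuallyEq.1 h1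
    filter_upwards [h2] with x hx
    rw [hx]
    simp
  · have h1 : (fun x => f x • g x) =ᶠ[𝓝 y₀] g := by
      filter_upwards [f.eventuallyEq_one] with x hx
      rw [hx]
      simp
    rw [dr_congr h1]
    have h2 : dr (V n) ℝ g y₀ X₀ = ℓ z₀ := by
      have h3 : DifferentiableAt ℝ (fun z : V n => ℓ (z - extChartAt (𝓡 n) y₀ y₀))
          (extChartAt (𝓡 n) y₀ y₀) := by fun_prop
      have h4 := dr_comp (E₁ := V n) (E₂ := V n) (E₃ := ℝ)
        (g := fun z : V n => ℓ (z - extChartAt (𝓡 n) y₀ y₀)) (f := extChartAt (𝓡 n) y₀) (x := y₀)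
        h3.mdifferentiableAt (md_ext (mem_extChartAt_source (I := 𝓡 n) y₀))
      rw [hg]
      rw [h4, ContinuousLinearMap.comp_apply, dr_eq_fderiv]
      have h5 : fderiv ℝ (fun z : V n => ℓ (z - extChartAt (𝓡 n) y₀ y₀))
          (extChartAt (𝓡 n) y₀ y₀) = ℓ := by
        have h6 : (fun z : V n => ℓ (z - extChartAt (𝓡 n) y₀ y₀)) =
            fun z => ℓ z - ℓ (extChartAt (𝓡 n) y₀ y₀) := by
          funext z
          rw [map_sub]
        rw [h6, fderiv_sub_const]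
        exact ℓ.fderiv
      rw [h5, hz₀]
      rfl
    rw [h2]
    exact hℓ

lemma dr_smul_const {ρ : N → ℝ} {x : N} (hρ : MDifferentiableAt (𝓡 n) 𝓘(ℝ, ℝ) ρ x) (s : V k)
    (v : V n) : dr (V n) (V k) (fun y => ρ y • s) x v = (dr (V n) ℝ ρ x v) • s := by
  have h3 : DifferentiableAt ℝ (fun z : ℝ => z • s) (ρ x) := by fun_prop
  have h4 := dr_comp (E₁ := V n) (E₂ := ℝ) (E₃ := V k) (g := fun z : ℝ => z • s) (f := ρ) (x := x)
    h3.mdifferentiableAt hρ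
  rw [h4, ContinuousLinearMap.comp_apply, dr_eq_fderiv]
  have h5 : fderiv ℝ (fun z : ℝ => z • s) (ρ x) = ContinuousLinearMap.toSpanSingleton ℝ s :=
    ((ContinuousLinearMap.toSpanSingleton ℝ s).hasFDerivAt (x := ρ x)).fderiv
  rw [h5]
  rfl

lemma toV_smul (t : V 1) : t = t 0 • toV 1 := by
  ext i
  rw [Subsingleton.elim i 0]
  simp [toV]

lemma orb_smul {Φ : V k → N → N} (x : N) (c : ℝ) (s : V k) :
    orb (n := n) Φ x (c • s) = c • orb (n := n) Φ x s := by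
  unfold orb
  exact map_smul _ c s

/-- The perturbation. -/
theorem pert {G : N → N} (hG : ContMDiff (𝓡 n) (𝓡 n) 1 G) {ψ : V 1 → N → N}
    (hact : IsAction 1 n N ψ) {y₀ : N} {p : ℕ} (hp : 1 ≤ p) (hy : G^[p] y₀ = y₀)
    (hfree : ∀ s, orb (n := n) ψ y₀ s = 0 → s = 0) {t₁ : V 1} (ht₁ : t₁ ≠ 0)
    (hfix : dr (V n) (V n) (G^[p]) y₀ (orb (n := n) ψ y₀ t₁) = orb (n := n) ψ y₀ t₁)
    {ρ : N → ℝ} (hρ : ContMDiff (𝓡 n) 𝓘(ℝ, ℝ) ∞ ρ) (hρ0 : ρ y₀ = 0)
    (hρi : ∀ i, 0 < i → i < p → ρ =ᶠ[𝓝 (G^[i] y₀)] fun _ => 0)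
    (hρX : dr (V n) ℝ ρ y₀ (orb (n := n) ψ y₀ (toV 1)) ≠ 0) {s : V 1} (hs : s ≠ 0) {H : N → N}
    (hH : ∀ y, H y = ψ (ρ (G y) • s) (G y)) :
    H^[p] y₀ = y₀ ∧ ∀ t, dr (V n) (V n) (H^[p]) y₀ (orb (n := n) ψ y₀ t) = orb (n := n) ψ y₀ t →
      t = 0 := by
  have hρd : MDifferentiable (𝓡 n) 𝓘(ℝ, ℝ) ρ := hρ.mdifferentiable (by simp)
  have hGd : MDifferentiable (𝓡 n) (𝓡 n) G := hG.mdifferentiable one_ne
  have hαd : MDifferentiable (𝓡 n) (𝓡 1) (fun y => ρ y • s) := by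
    intro y
    have h3 : Differentiable ℝ (fun z : ℝ => z • s) := by fun_prop
    exact (h3 (ρ y)).mdifferentiableAt.comp y (hρd y)
  have hψ1 : ∀ q : V 1 × N, MDifferentiableAt ((𝓡 1).prod (𝓡 n)) (𝓡 n)
      (fun q : V 1 × N => ψ q.1 q.2) q := fun q => hact.smooth.mdifferentiable (by simp) q
  have hKd : MDifferentiable (𝓡 n) (𝓡 n) (fun y => ψ (ρ y • s) y) := by
    intro y
    exact (hψ1 _).comp y ((hαd y).prodMk mdifferentiableAt_id)
  have hHG : H = fun y => (fun y => ψ (ρ y • s) y) (G y) := funext hH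
  have hHd : MDifferentiable (𝓡 n) (𝓡 n) H := by
    rw [hHG]
    exact fun y => (hKd (G y)).comp y (hGd y)
  have hρi' : ∀ i, 0 < i → i ≤ p → ρ (G^[i] y₀) = 0 := by
    intro i hi hip
    rcases Nat.lt_or_ge i p with h1 | h1
    · exact (hρi i hi h1).self_of_nhds
    · have : i = p := by omega
      rw [this, hy, hρ0]
  -- the orbit does not change
  have hit : ∀ i ≤ p, H^[i] y₀ = G^[i] y₀ := by
    intro i
    induction i with
    | zero => intro _; rfl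
    | succ i ih =>
      intro hi
      rw [Function.iterate_succ_apply', ih (by omega), hH, ← Function.iterate_succ_apply' G,
        Nat.succ_eq_add_one, hρi' (i + 1) (by omega) hi, zero_smul, hact.zero]
  -- the derivatives do not change before the last step
  have hdr : ∀ i < p, ∀ w, dr (V n) (V n) (H^[i]) y₀ w = dr (V n) (V n) (G^[i]) y₀ w := by
    intro i
    induction i with
    | zero => intro _ w; rfl
    | succ i ih =>
      intro hi w
      have h1 : H =ᶠ[𝓝 (G^[i] y₀)] G := by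
        have h2 : Tendsto G (𝓝 (G^[i] y₀)) (𝓝 (G^[i + 1] y₀)) := by
          rw [Function.iterate_succ_apply']
          exact hG.continuous.tendsto _
        filter_upwards [h2.eventually (hρi (i + 1) (by omega) hi)] with y hy1
        rw [hH, hy1, zero_smul, hact.zero]
      rw [dr_iter_succ hHd, dr_iter_succ hGd, ih (by omega), hit i (by omega), dr_congr h1]
  have hlast : ∀ w, dr (V n) (V n) (H^[p]) y₀ w =
      dr (V n) (V n) (fun y => ψ (ρ y • s) y) y₀ (dr (V n) (V n) (G^[p]) y₀ w) := by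
    intro w
    obtain ⟨q, rfl⟩ : ∃ q, p = q + 1 := ⟨p - 1, by omega⟩
    have h1 : G (G^[q] y₀) = y₀ := by rw [← Function.iterate_succ_apply' G]; exact hy
    rw [dr_iter_succ hHd, hdr q (by omega), hit q (by omega), dr_iter_succ hGd]
    have h2 := dr_comp (E₁ := V n) (E₂ := V n) (E₃ := V n) (g := fun y => ψ (ρ y • s) y) (f := G)
      (x := G^[q] y₀) (hKd _) (hGd _)
    rw [← hHG, h1] at h2
    rw [h2]
    rfl
  have hK : ∀ w, dr (V n) (V n) (fun y => ψ (ρ y • s) y) y₀ w =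
      w + orb (n := n) ψ y₀ ((dr (V n) ℝ ρ y₀ w) • s) := by
    intro w
    rw [dr_move hact (hαd y₀) w, dr_smul_const (hρd y₀), hρ0, zero_smul, hact.zero]
    have h1 : dr (V n) (V n) (ψ 0) y₀ w = w := by
      have h2 : ψ 0 = id := funext hact.zero
      rw [h2]
      have h3 : mfderiv (𝓡 n) (𝓡 n) (id : N → N) y₀ = ContinuousLinearMap.id ℝ (V n) := mfderiv_id
      show mfderiv (𝓡 n) (𝓡 n) (id : N → N) y₀ w = w
      rw [h3]
      rfl
    rw [h1]
  have hfixt : ∀ t : V 1, dr (V n) (V n) (G^[p]) y₀ (orb (n := n) ψ y₀ t) =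
      orb (n := n) ψ y₀ t := by
    intro t
    have h1 : t₁ 0 ≠ 0 := by
      intro h2
      apply ht₁
      rw [toV_smul t₁, h2, zero_smul]
    have h2 : t = (t 0 / t₁ 0) • t₁ := by
      ext i
      rw [Subsingleton.elim i 0]
      simp only [PiLp.smul_apply, smul_eq_mul]
      field_simp
    rw [h2, orb_smul, map_smul, hfix]
  refine ⟨by rw [hit p le_rfl, hy], fun t ht => ?_⟩
  rw [hlast, hfixt, hK] at ht
  have h1 : orb (n := n) ψ y₀ ((dr (V n) ℝ ρ y₀ (orb (n := n) ψ y₀ t)) • s) = 0 := by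
    simpa using ht
  have h2 := hfree _ h1
  have h3 : dr (V n) ℝ ρ y₀ (orb (n := n) ψ y₀ t) = 0 := by
    rcases smul_eq_zero.1 h2 with h | h
    · exact h
    · exact absurd h hs
  rw [toV_smul t, orb_smul, map_smul, smul_eq_mul] at h3
  have h4 : t 0 = 0 := by
    rcases mul_eq_zero.1 h3 with h | h
    · exact h
    · exact absurd h hρX
  rw [toV_smul t, h4, zero_smul]

end Pool.Agent.Helper16.OL
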