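import Mathlib
import Pool.Agent.Helper16.OL.G2
import Pool.Agent.Helper16.OL.Omega

/-! Generic diffeomorphisms which preserve the oriented orbits of a flow and are hyperbolic transversally
to them. -/

open scoped Topology ContDiff Manifold
open Set Metric Filter

noncomputable section

set_option linter.unusedSectionVars false

namespace Pool.Agent.Helper16.OL

open Pool.Agent.H718R2.G Pool.Agent.R774.Cl Pool.Agent.R774.ClStmt Pool.Agent.W564.SC
open Pool.Agent.R774.OS Pool.Agent.TH80.OMS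
open Pool.Agent.Y504.CO (NonDeg)

section defs
variable {n m : ℕ} {N : Type} [TopologicalSpace N] [ChartedSpace (V n) N]

/-- `F` maps the orbit of `y` to the orbit of `F y`, preserving the orientation. -/
def OrbMap (ψ : V 1 → N → N) (F : N → N) (y : N) : Prop :=
  ∃ g : ℝ → ℝ, Continuous g ∧ Monotone g ∧ g 0 = 0 ∧
    ∀ t : ℝ, F (ψ (toV t) y) = ψ (toV (g t)) (F y)

/-- `DF` maps the vectors at `y` which are tangent to the orbit of `y` to vectors which are tangent to the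
orbit of `F y`. -/
def TangAt (ψ : V 1 → N → N) (F : N → N) (y : N) : Prop :=
  ∀ s : V 1, ∃ s' : V 1, dr (V n) (V n) F y (orb (n := n) ψ y s) = orb (n := n) ψ (F y) s'

/-- The quadratic form `Q = quad e B` increases strictly under `DF` on the vectors at `x` which are not
tangent to the orbit. -/
def IncrAt (ψ : V 1 → N → N) (F : N → N) (e : N → V m) (B : N → V m →L[ℝ] V m →L[ℝ] ℝ) (x : N) :
    Prop :=
  ∀ v : V n, (∀ s, v ≠ orb (n := n) ψ x s) →
    quad e B x v < quad e B (F x) (dr (V n) (V n) F x v)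

/-- The quadratic form `Q = quad e B` does not change in the direction of the orbit at `y`. -/
def BasicAt (ψ : V 1 → N → N) (e : N → V m) (B : N → V m →L[ℝ] V m →L[ℝ] ℝ) (y : N) : Prop :=
  ∀ (v : V n) (s : V 1), quad e B y (v + orb (n := n) ψ y s) = quad e B y v

/-- `F` maps the orbits of the flow `ψ` to orbits of `ψ`, preserving their orientation, and `F` is
hyperbolic transversally to the orbits on its chain recurrent set: `DF` preserves the tangent lines of the
orbits, and for some quadratic forms `Q = quad e B` (of any signature), which do not change in the direction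
of the orbits near `CR F`, `Q` increases strictly under `DF` on all vectors at the points of `CR F` which are
not tangent to the orbits. -/
structure FlowHyp (ψ : V 1 → N → N) (F : N → N) : Prop where
  leaf : ∀ y, OrbMap ψ F y
  tang : ∀ y, TangAt (n := n) ψ F y
  hyp : ∃ (m : ℕ) (e : N → V m) (B : N → V m →L[ℝ] V m →L[ℝ] ℝ),
    ContMDiff (𝓡 n) (𝓡 m) 1 e ∧ Continuous B ∧ (∀ x ∈ CR F, IncrAt (n := n) ψ F e B x) ∧
    ∃ O : Set N, IsOpen O ∧ CR F ⊆ O ∧ ∀ y ∈ O, BasicAt (n := n) ψ e B y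

end defs

variable {n m : ℕ} {N : Type} [TopologicalSpace N] [ChartedSpace (V n) N]
  [IsManifold (𝓡 n) ∞ N] [T2Space N] [CompactSpace N]

lemma orb_add {k : ℕ} {Φ : V k → N → N} (x : N) (s t : V k) :
    orb (n := n) Φ x (s + t) = orb (n := n) Φ x s + orb (n := n) Φ x t := by
  unfold orb
  exact map_add _ s t

lemma orb_zero {k : ℕ} {Φ : V k → N → N} (x : N) : orb (n := n) Φ x 0 = 0 := by
  unfold orb
  exact map_zero _

omit [IsManifold (𝓡 n) ∞ N] [T2Space N] [CompactSpace N] in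
lemma leaf_of_leafMap {ψ : V 1 → N → N} {F : N → N} {y : N} {τ : V 1 → V 1}
    (hτ : LeafMap univ τ) (h : ∀ t, F (ψ t y) = ψ (τ t) (F y)) :
    ∃ g : ℝ → ℝ, Continuous g ∧ Monotone g ∧ g 0 = 0 ∧
      ∀ t : ℝ, F (ψ (toV t) y) = ψ (toV (g t)) (F y) := by
  obtain ⟨g, h1, h2, h3, h4⟩ := hτ.line 0 (mem_univ 0)
  refine ⟨g, h1, h2, h3, fun t => ?_⟩
  rw [h]
  congr 1
  rw [← toV_coord (τ (toV t)), h4]
  rfl

/-- uniform hyperbolicity near the chain recurrent set -/
lemma unif_incr {r : ℕ∞} (hr : 1 ≤ r) {F : DiffM n N r} {ψ : V 1 → N → N}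
    (hact : IsAction 1 n N ψ) (hfree : ∀ (y : N) (s : V 1), orb (n := n) ψ y s = 0 → s = 0)
    (htang : ∀ (y : N) (s : V 1), ∃ s' : V 1,
      dr (V n) (V n) F y (orb (n := n) ψ y s) = orb (n := n) ψ (F y) s')
    {e : N → V m} {B : N → V m →L[ℝ] V m →L[ℝ] ℝ} (he : ContMDiff (𝓡 n) (𝓡 m) 1 e)
    (hB : Continuous B)
    (hincr : ∀ x ∈ CR F, ∀ v : V n, (∀ s, v ≠ orb (n := n) ψ x s) →
      quad e B x v < quad e B (F x) (dr (V n) (V n) F x v))
    {O : Set N} (hO : IsOpen O) (hFO : CR F ⊆ O)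
    (hbasic : ∀ y ∈ O, ∀ (v : V n) (s : V 1), quad e B y (v + orb (n := n) ψ y s) = quad e B y v) :
    ∃ (A : Set N) (κ : ℝ), IsOpen A ∧ CR F ⊆ A ∧ 0 < κ ∧ ∀ x ∈ A, ∀ c : V 1, ‖c‖ < κ →
      ∀ v : V n, (∀ s, v ≠ orb (n := n) ψ x s) →
        quad e B x v < quad e B (ψ c (F x)) (dr (V n) (V n) (fun y => ψ c (F y)) x v) := by
  have : SecondCountableTopology N := ChartedSpace.secondCountable_of_sigmaCompact (V n) N
  let _ : MetricSpace N := TopologicalSpace.metrizableSpaceMetric N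
  have hF : ContMDiff (𝓡 n) (𝓡 n) 1 F := F.contMDiff_toFun.of_le (by exact_mod_cast hr)
  have h1 : ∀ᶠ q : N × V 1 in 𝓝ˢ (CR F ×ˢ {0}),
      ∀ v : V n, (∀ s, v ≠ orb (n := n) ψ q.1 s) →
        quad e B q.1 v < quad e B (ψ q.2 (F q.1))
          (dr (V n) (V n) (fun y => ψ q.2 (F y)) q.1 v) := by
    rw [eventually_nhdsSet_iff_forall]
    rintro ⟨x₀, c⟩ ⟨hx₀, hc⟩
    simp only [mem_singleton_iff] at hc hx₀
    subst hc
    exact (incr_near hF hact he hB hO (fun y _ => htang y) hbasic (hFO hx₀)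
      (hFO (cr_inv F.continuous hx₀)) (hfree x₀) (hincr x₀ hx₀)).mono fun q hq => hq.2
  rw [(isClosed_CR F.continuous).isCompact.nhdsSet_prod_eq isCompact_singleton,
    nhdsSet_singleton, Filter.eventually_prod_iff] at h1
  obtain ⟨pa, hpa, pb, hpb, hP⟩ := h1
  obtain ⟨A, hA, hFA, hApa⟩ := eventually_nhdsSet_iff_exists.1 hpa
  obtain ⟨κ₁, hκ₁, hκpb⟩ := Metric.eventually_nhds_iff.1 hpb
  exact ⟨A, κ₁, hA, hFA, hκ₁, fun x hx c hc => hP (hApa x hx)
    (hκpb (y := c) (by rwa [dist_zero_right]))⟩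

/-- The class is stable under small displacements along the orbits. -/
theorem FlowHyp.persist {r : ℕ∞} (hr : 1 ≤ r) {F : DiffM n N r} {ψ : V 1 → N → N}
    (hact : IsAction 1 n N ψ) (hfree : ∀ (y : N) (s : V 1), orb (n := n) ψ y s = 0 → s = 0)
    (h : FlowHyp (n := n) ψ F) : ∃ κ : ℝ, 0 < κ ∧ ∀ (G : DiffM n N r) (α : N → V 1),
      ContMDiff (𝓡 n) (𝓡 1) 1 α → (∀ y, ‖α y‖ < κ) → (∀ y, G y = ψ (α (F y)) (F y)) →
      FlowHyp (n := n) ψ G := by
  have : SecondCountableTopology N := ChartedSpace.secondCountable_of_sigmaCompact (V n) N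
  let _ : MetricSpace N := TopologicalSpace.metrizableSpaceMetric N
  obtain ⟨m, e, B, he, hB, hincr, O, hO, hFO, hbasic⟩ := h.hyp
  obtain ⟨A, κ₁, hA, hFA, hκ₁, hP⟩ := unif_incr hr hact hfree h.tang he hB hincr hO hFO hbasic
  obtain ⟨δ, hδ, husc⟩ := cr_usc F.continuous (hA.inter hO) (subset_inter hFA hFO)
  have hFd : MDifferentiable (𝓡 n) (𝓡 n) F :=
    (F.contMDiff_toFun.of_le (by exact_mod_cast hr : (1 : WithTop ℕ∞) ≤ r)).mdifferentiable one_ne
  -- uniform closeness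
  have h2 : ∀ᶠ c : V 1 in 𝓝 0, ∀ x ∈ (univ : Set N), dist (ψ c x) x < δ := by
    refine isCompact_univ.eventually_forall_of_forall_eventually fun x₀ _ => ?_
    have hΦc : Continuous fun q : V 1 × N => ψ q.1 q.2 := hact.smooth.continuous
    have h3 : Continuous fun q : V 1 × N => dist (ψ q.1 q.2) q.2 := hΦc.dist continuous_snd
    have h4 : dist (ψ 0 x₀) x₀ < δ := by rw [hact.zero, dist_self]; exact hδ
    exact (h3.tendsto (0, x₀)).eventually (gt_mem_nhds h4)
  obtain ⟨κ₂, hκ₂, hκ2⟩ := Metric.eventually_nhds_iff.1 h2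
  refine ⟨min κ₁ κ₂, lt_min hκ₁ hκ₂, fun G α hα hακ hG => ?_⟩
  have hαd : MDifferentiable (𝓡 n) (𝓡 1) α := hα.mdifferentiable one_ne
  have hGK : (G : N → N) = fun y => (fun y => ψ (α y) y) (F y) := funext hG
  have hψ1 : ∀ q : V 1 × N, MDifferentiableAt ((𝓡 1).prod (𝓡 n)) (𝓡 n)
      (fun q : V 1 × N => ψ q.1 q.2) q := fun q => hact.smooth.mdifferentiable (by simp) q
  have hKd : MDifferentiable (𝓡 n) (𝓡 n) (fun y => ψ (α y) y) := by
    intro y
    exact (hψ1 _).comp y ((hαd y).prodMk mdifferentiableAt_id)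
  have hsub : CR G ⊆ A ∩ O := husc _ fun x => by
    rw [hG]
    exact hκ2 (y := α (F x)) (by
      rw [dist_zero_right]; exact (hακ _).trans_le (min_le_right _ _)) _ (mem_univ _)
  have hdrG : ∀ x v, dr (V n) (V n) G x v =
      dr (V n) (V n) (ψ (α (F x))) (F x) (dr (V n) (V n) F x v) +
        orb (n := n) ψ (G x) (dr (V n) (V 1) α (F x) (dr (V n) (V n) F x v)) := by
    intro x v
    have h3 := dr_comp (E₁ := V n) (E₂ := V n) (E₃ := V n) (g := fun y => ψ (α y) y) (f := F)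
      (x := x) (hKd _) (hFd _)
    rw [← hGK] at h3
    rw [h3, ContinuousLinearMap.comp_apply, dr_move hact (hαd (F x)), hG]
  refine ⟨fun y => ?_, fun y s => ?_, m, e, B, he, hB, fun x hx v hv => ?_, O, hO,
    fun x hx => (hsub hx).2, hbasic⟩
  · -- the leaves
    have hKinj : Function.Injective (fun y => ψ (α y) y) := by
      intro a b hab
      obtain ⟨a', rfl⟩ := F.surjective a
      obtain ⟨b', rfl⟩ := F.surjective b
      have h3 : G a' = G b' := by rw [hG, hG]; exact hab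
      rw [G.injective h3]
    obtain ⟨τ, hτ, hτK⟩ := leaf_time hact hα.continuous hKinj (O := univ)
      (fun _ _ _ => mem_univ _) (fun _ _ => rfl) (mem_univ (F y))
    obtain ⟨g, hg1, hg2, hg3, hg4⟩ :=
      leaf_of_leafMap (F := fun y => ψ (α y) y) (ψ := ψ) (y := F y) hτ hτK
    obtain ⟨g', hg1', hg2', hg3', hg4'⟩ := h.leaf y
    refine ⟨g ∘ g', hg1.comp hg1', hg2.comp hg2', by simp [hg3, hg3'], fun t => ?_⟩
    have h4 := hg4 (g' t)
    rw [← hG y, ← hg4' t, ← hG] at h4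
    exact h4
  · obtain ⟨s', hs'⟩ := h.tang y s
    rw [hdrG, hs', dr_act hact, ← hG, ← orb_add]
    exact ⟨_, rfl⟩
  · have h3 := hP x (hsub hx).1 (α (F x)) ((hακ _).trans_le (min_le_left _ _)) v hv
    have h4 : dr (V n) (V n) (fun y => ψ (α (F x)) (F y)) x v =
        dr (V n) (V n) (ψ (α (F x))) (F x) (dr (V n) (V n) F x v) := by
      have h5 := dr_comp (E₁ := V n) (E₂ := V n) (E₃ := V n) (g := ψ (α (F x))) (f := F)
        (x := x) (act_md hact _ _) (hFd _)
      rw [h5]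
      rfl
    rw [h4, ← hG] at h3
    rw [hdrG, hbasic (G x) (hsub (cr_inv G.continuous hx)).2 _ _]
    exact h3

end Pool.Agent.Helper16.OL
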