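import Mathlib
import Pool.Agent.Helper16.OL.G3

/-! Generic density of the periodic points. -/

open scoped Topology ContDiff Manifold
open Set Metric Filter

noncomputable section

set_option linter.unusedSectionVars false

namespace Pool.Agent.Helper16.OL

open Pool.Agent.H718R2.G Pool.Agent.R774.Cl Pool.Agent.R774.ClStmt Pool.Agent.W564.SC
open Pool.Agent.R774.OS Pool.Agent.TH80.OMS
open Pool.Agent.Y504.CO (NonDeg)

variable {n m : ℕ} {N : Type} [TopologicalSpace N] [ChartedSpace (V n) N]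
  [IsManifold (𝓡 n) ∞ N] [T2Space N] [CompactSpace N]

lemma FlowHyp.hypLeaves {F : N → N} (hF : Continuous F) {ψ : V 1 → N → N}
    (hact : IsAction 1 n N ψ) (hfree : ∀ (y : N) (s : V 1), orb (n := n) ψ y s = 0 → s = 0)
    (h : FlowHyp (n := n) ψ F) : ∃ (m : ℕ) (e : N → V m) (B : N → V m →L[ℝ] V m →L[ℝ] ℝ),
      HypLeaves (n := n) (univ : Set (Fin 1)) F ψ (CR F) e B := by
  have : SecondCountableTopology N := ChartedSpace.secondCountable_of_sigmaCompact (V n) N
  let _ : MetricSpace N := TopologicalSpace.metrizableSpaceMetric N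
  obtain ⟨m, e, B, he, hB, hincr, O, hO, hFO, hbasic⟩ := h.hyp
  refine ⟨m, e, B, hact, isClosed_CR hF, fun x hx => cr_inv hF hx,
    ⟨univ, isOpen_univ, subset_univ _, fun y _ v hv _ => ?_, fun y _ => ?_⟩, fun x _ => hfree x,
    he, hB, fun x hx => hbasic x (hFO hx), hincr⟩
  · have hv0 : v = 0 := by
      ext i
      exact hv i (mem_univ i)
    rw [hv0, hact.zero]
  · obtain ⟨g, h1, h2, h3, h4⟩ := h.leaf y
    refine ⟨fun t => toV (g (t 0)), leafMap_one h1 h2 h3, fun t => ?_⟩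
    have h5 := h4 (t 0)
    rw [toV_coord] at h5
    exact h5

lemma iter_cr (n : ℕ) {N : Type} [TopologicalSpace N] [ChartedSpace (V n) N] [T2Space N]
    [CompactSpace N] {F : N → N} (hF : Continuous F) {y : N} (hy : y ∈ CR F) (i : ℕ) :
    F^[i] y ∈ CR F := by
  have : SecondCountableTopology N := ChartedSpace.secondCountable_of_sigmaCompact (V n) N
  let _ : MetricSpace N := TopologicalSpace.metrizableSpaceMetric N
  induction i with
  | zero => exact hy
  | succ i ih => rw [Function.iterate_succ_apply']; exact cr_inv hF ih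

/-- fixed vectors of the return map are tangent to the flow -/
lemma FlowHyp.fixed {F : N → N} (hF : ContMDiff (𝓡 n) (𝓡 n) 1 F) {ψ : V 1 → N → N}
    (h : FlowHyp (n := n) ψ F) {y : N} {p : ℕ} (hp : 1 ≤ p) (hy : F^[p] y = y) {v : V n}
    (hv : dr (V n) (V n) (F^[p]) y v = v) : ∃ s, v = orb (n := n) ψ y s := by
  have : SecondCountableTopology N := ChartedSpace.secondCountable_of_sigmaCompact (V n) N
  let _ : MetricSpace N := TopologicalSpace.metrizableSpaceMetric N
  obtain ⟨m, e, B, he, hB, hincr, -⟩ := h.hyp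
  have hycr : y ∈ CR F := omega_CR hF.continuous (per_mem_omega hp hy)
  refine fixed_tangent (hF.mdifferentiable one_ne) hp hy (e := e) (B := B) (fun i s => ?_)
    (fun i v hv => ?_) hv
  · rw [Function.iterate_succ_apply']
    exact h.tang _ s
  · rw [Function.iterate_succ_apply']
    exact hincr _ (iter_cr n hF.continuous hycr i) v hv

/-- A periodic point of a map in the class becomes nondegenerate after a small perturbation inside the
class. -/
theorem FlowHyp.exists_nonDeg {r : ℕ∞} (hr : 1 ≤ r) {G : DiffM n N r} {ψ : V 1 → N → N}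
    (hact : IsAction 1 n N ψ) (hfree : ∀ (y : N) (s : V 1), orb (n := n) ψ y s = 0 → s = 0)
    (h : FlowHyp (n := n) ψ G) {y : N} (hper : y ∈ Per G) {U : Set (DiffM n N r)}
    (hU : IsOpen[strongTop n N r] U) (hGU : G ∈ U) :
    ∃ H ∈ U, FlowHyp (n := n) ψ H ∧ ∃ (p : ℕ) (χ : ℕ → OpenPartialHomeomorph N (V n)),
      NonDeg n H y p χ := by
  have hG1 : ContMDiff (𝓡 n) (𝓡 n) 1 G := G.contMDiff_toFun.of_le (by exact_mod_cast hr)
  obtain ⟨q, hq, hqy⟩ := hper
  obtain ⟨p, hpdef⟩ : ∃ p, p = Function.minimalPeriod G y := ⟨_, rfl⟩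
  have hpp : Function.IsPeriodicPt G q y := hqy
  have hp : 1 ≤ p := by
    rw [hpdef]
    exact hpp.minimalPeriod_pos (by omega)
  have hpy : G^[p] y = y := by
    rw [hpdef]
    exact Function.iterate_minimalPeriod
  have hpne : ∀ i, 0 < i → i < p → G^[i] y ≠ y := by
    intro i hi hip heq
    rw [hpdef] at hip
    exact Function.not_isPeriodicPt_of_pos_of_lt_minimalPeriod hi.ne' hip heq
  by_cases hA : ∀ v : V n, dr (V n) (V n) (G^[p]) y v = v → v = 0
  · exact ⟨G, hGU, h, p, _, nonDeg_of_dr hG1 hp hpy hA⟩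
  · push Not at hA
    obtain ⟨v, hv, hv0⟩ := hA
    obtain ⟨t₁, ht₁⟩ := h.fixed hG1 hp hpy hv
    have ht₁0 : t₁ ≠ 0 := by
      intro h1
      apply hv0
      rw [ht₁, h1, orb_zero]
    -- a neighbourhood of `y` without other points of the orbit
    obtain ⟨W, hW, hWi⟩ : ∃ W ∈ 𝓝 y, ∀ i, 0 < i → i < p → G^[i] y ∉ W := by
      classical
      refine ⟨((Finset.Ioo 0 p).image (fun i => G^[i] y) : Set N)ᶜ, ?_, fun i hi hip hmem => ?_⟩
      · refine (Finset.finite_toSet _).isClosed.isOpen_compl.mem_nhds ?_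
        intro hmem
        obtain ⟨i, hi, hiy⟩ := Finset.mem_image.1 (Finset.mem_coe.1 hmem)
        rw [Finset.mem_Ioo] at hi
        exact hpne i hi.1 hi.2 hiy
      · apply hmem
        exact Finset.mem_coe.2 (Finset.mem_image.2 ⟨i, Finset.mem_Ioo.2 ⟨hi, hip⟩, rfl⟩)
    have hX : orb (n := n) ψ y (toV 1) ≠ 0 := by
      intro h1
      have h2 := hfree y _ h1
      have h3 : (toV 1) 0 = (0 : V 1) 0 := by rw [h2]
      rw [toV_apply] at h3
      exact one_ne_zero h3
    obtain ⟨ρ, hρ, hρ0, hρW, hρX⟩ := exists_bump hX hW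
    obtain ⟨κ, hκ, hpers⟩ := h.persist hr hact hfree
    obtain ⟨K, κa, hκa, hK0, hKfam, hKs⟩ := Pool.Agent.TH80.CLX.act_fam hact.smooth hρ hact.zero
      hact.add r (Diffeomorph.refl (𝓡 n) N r)
    -- the perturbations
    obtain ⟨Hs, hHs⟩ : ∃ Hs : V 1 → DiffM n N r, Hs = fun s => G.trans (K s) := ⟨_, rfl⟩
    have hHfam : IsFam n N r Hs := by
      intro z
      have h1 : ContMDiffAt (𝓘(ℝ, V 1).prod (𝓡 n)) (𝓘(ℝ, V 1).prod (𝓡 n)) r
          (fun q : V 1 × N => (q.1, G q.2)) ((0 : V 1), z) :=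
        contMDiffAt_fst.prodMk (G.contMDiff_toFun.contMDiffAt.comp _ contMDiffAt_snd)
      rw [hHs]
      exact ContMDiffAt.comp (g := fun q : V 1 × N => K q.1 q.2) ((0 : V 1), z) (hKfam (G z)) h1
    have hH0 : Hs 0 ∈ U := by
      have h1 : Hs 0 = G := by
        rw [hHs]
        show G.trans (K 0) = G
        rw [hK0]
        ext z
        rfl
      rw [h1]
      exact hGU
    obtain ⟨κU, hκU, hHU⟩ := Pool.Agent.TH80.CLX.fam_mem r hr Hs hHfam y U hU hH0
    obtain ⟨M, hM⟩ := (isCompact_range hρ.continuous).isBounded.exists_norm_le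
    have hM' : ∀ z, ‖ρ z‖ ≤ |M| + 1 := fun z =>
      (hM _ ⟨z, rfl⟩).trans ((le_abs_self M).trans (by linarith))
    have hM1 : 0 < |M| + 1 := by positivity
    obtain ⟨ε, hε, hε1, hε2, hε3⟩ : ∃ ε : ℝ, 0 < ε ∧ ε < κa ∧ ε < κU ∧ (|M| + 1) * ε < κ := by
      have h1 : ∀ᶠ ε in 𝓝[>] (0:ℝ), ε < κa := mem_nhdsWithin_of_mem_nhds (gt_mem_nhds hκa)
      have h2 : ∀ᶠ ε in 𝓝[>] (0:ℝ), ε < κU := mem_nhdsWithin_of_mem_nhds (gt_mem_nhds hκU)
      have h3 : ∀ᶠ ε in 𝓝[>] (0:ℝ), (|M| + 1) * ε < κ := by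
        have h4 : Tendsto (fun ε : ℝ => (|M| + 1) * ε) (𝓝 0) (𝓝 ((|M| + 1) * 0)) :=
          (continuous_const.mul continuous_id).tendsto 0
        rw [mul_zero] at h4
        exact mem_nhdsWithin_of_mem_nhds (h4.eventually (gt_mem_nhds hκ))
      have h5 : ∀ᶠ ε in 𝓝[>] (0:ℝ), 0 < ε := eventually_mem_nhdsWithin
      obtain ⟨ε, h6, h7, h8, h9⟩ := (h5.and (h1.and (h2.and h3))).exists
      exact ⟨ε, h6, h7, h8, h9⟩
    obtain ⟨s, hs⟩ : ∃ s : V 1, s = ε • toV 1 := ⟨_, rfl⟩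
    have hn1 : ‖toV 1‖ = 1 := by
      rw [EuclideanSpace.norm_eq]
      simp [toV]
    have hsn : ‖s‖ = ε := by
      rw [hs, norm_smul, hn1, mul_one, Real.norm_eq_abs, abs_of_pos hε]
    have hs0 : s ≠ 0 := by
      rw [← norm_pos_iff, hsn]
      exact hε
    have hHy : ∀ z, Hs s z = ψ (ρ (G z) • s) (G z) := by
      intro z
      rw [hHs]
      show K s (G z) = _
      rw [hKs s (by rw [hsn]; exact hε1)]
      rfl
    have hcl : FlowHyp (n := n) ψ (Hs s) := by
      refine hpers (Hs s) (fun z => ρ z • s) ?_ (fun z => ?_) hHy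
      · have h1 : ContMDiff (𝓡 n) 𝓘(ℝ, ℝ) 1 ρ := hρ.of_le (by exact_mod_cast le_top)
        have h2 : ContDiff ℝ 1 (fun a : ℝ => a • s) := contDiff_id.smul contDiff_const
        exact h2.contMDiff.comp h1
      · rw [norm_smul, hsn]
        exact (mul_le_mul_of_nonneg_right (hM' z) hε.le).trans_lt hε3
    have hH1 : ContMDiff (𝓡 n) (𝓡 n) 1 (Hs s) :=
      (Hs s).contMDiff_toFun.of_le (by exact_mod_cast hr)
    obtain ⟨hHp, hHt⟩ := pert hG1 hact hp hpy (hfree y) ht₁0 (by rw [← ht₁]; exact hv) hρ hρ0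
      (fun i hi hip => hρW _ (hWi i hi hip)) hρX hs0 (H := Hs s) hHy
    refine ⟨Hs s, hHU s (by rw [hsn]; exact hε2), hcl, p, _, nonDeg_of_dr hH1 hp hHp
      fun w hw => ?_⟩
    obtain ⟨t, ht⟩ := hcl.fixed hH1 hp hHp hw
    rw [ht] at hw
    rw [ht, hHt t hw, orb_zero]

end Pool.Agent.Helper16.OL
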