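import Mathlib
import Pool.Agent.Helper16.OL.G4

/-! Generic density of the periodic points: main theorem. -/

open scoped Topology ContDiff Manifold
open Set Metric Filter

noncomputable section

set_option linter.unusedSectionVars false

namespace Pool.Agent.Helper16.OL

open Pool.Agent.H718R2.G Pool.Agent.R774.Cl Pool.Agent.R774.ClStmt Pool.Agent.W564.SC
open Pool.Agent.R774.OS Pool.Agent.TH80.OMS

variable {n : ℕ} {N : Type} [TopologicalSpace N] [ChartedSpace (V n) N]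
  [IsManifold (𝓡 n) ∞ N] [T2Space N] [CompactSpace N]

/-- Near every chain recurrent point of a map in the class there are, after a small perturbation inside the
class, persistent periodic points. -/
theorem FlowHyp.step {r : ℕ∞} (hr : 1 ≤ r) {F : DiffM n N r} {ψ : V 1 → N → N}
    (hact : IsAction 1 n N ψ) (hfree : ∀ (y : N) (s : V 1), orb (n := n) ψ y s = 0 → s = 0)
    (h : FlowHyp (n := n) ψ F) {z : N} (hz : z ∈ CR F) {O : Set N} (hO : IsOpen O) (hzO : z ∈ O)
    {U : Set (DiffM n N r)} (hU : IsOpen[strongTop n N r] U) (hFU : F ∈ U) :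
    ∃ H ∈ U, FlowHyp (n := n) ψ H ∧ ∃ W : Set (DiffM n N r), IsOpen[strongTop n N r] W ∧ H ∈ W ∧
      ∀ H' ∈ W, (O ∩ Per H').Nonempty := by
  have : SecondCountableTopology N := ChartedSpace.secondCountable_of_sigmaCompact (V n) N
  let _ : MetricSpace N := TopologicalSpace.metrizableSpaceMetric N
  obtain ⟨κ₀, hκ₀, hpers⟩ := h.persist hr hact hfree
  obtain ⟨κ₁, hκ₁, hκU⟩ := Pool.Agent.TH80.CLX.fam_mem r hr (famD hact r F)
    (famD_isFam hact r F) z U hU (by rw [famD_zero]; exact hFU)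
  obtain ⟨m, e, B, hyp⟩ := h.hypLeaves F.continuous hact hfree
  obtain ⟨c, hc, y, hyO, p, hp, hper⟩ := per_near r hr F hyp (conley F.continuous hz)
    (lt_min hκ₀ hκ₁) (hO.mem_nhds hzO)
  have hG : FlowHyp (n := n) ψ (famD hact r F c) :=
    hpers _ (fun _ => c) contMDiff_const (fun _ => hc.trans_le (min_le_left _ _)) (fun _ => rfl)
  have hGU : famD hact r F c ∈ U := hκU c (hc.trans_le (min_le_right _ _))
  obtain ⟨H, hHU, hH, q, χ, hnd⟩ := hG.exists_nonDeg hr hact hfree ⟨p, hp, hper⟩ hU hGU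
  obtain ⟨W, hW, hHW, hWp⟩ := Pool.Agent.Y504.CO.GnrF.hPE n N r hr H y q χ hnd O hO hyO
  refine ⟨H, hHU, hH, W, hW, hHW, fun H' hH' => ?_⟩
  obtain ⟨x, hxO, hx⟩ := hWp H' hH'
  exact ⟨x, hxO, hx⟩

/-- Generic density of the periodic points. -/
theorem generic (r : ℕ∞) (hr : 1 ≤ r) {ψ : V 1 → N → N} (hact : IsAction 1 n N ψ)
    (hfree : ∀ (y : N) (s : V 1), orb (n := n) ψ y s = 0 → s = 0) :
    ∃ R : ℕ → Set (DiffM n N r), (∀ j, IsOpen[strongTop n N r] (R j)) ∧
      (∀ j, ∀ F : DiffM n N r, FlowHyp (n := n) ψ F → ∀ U : Set (DiffM n N r),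
        IsOpen[strongTop n N r] U → F ∈ U → ∃ G ∈ U, G ∈ R j ∧ FlowHyp (n := n) ψ G) ∧
      ∀ F : DiffM n N r, FlowHyp (n := n) ψ F → (∀ j, F ∈ R j) →
        CR F = closure (Per F) ∧ Omega F = closure (Per F) := by
  have : SecondCountableTopology N := ChartedSpace.secondCountable_of_sigmaCompact (V n) N
  let _ : MetricSpace N := TopologicalSpace.metrizableSpaceMetric N
  obtain ⟨t, ht⟩ : ∃ t : TopologicalSpace {F : DiffM n N r // FlowHyp (n := n) ψ F},
    t = TopologicalSpace.induced Subtype.val (strongTop n N r) := ⟨_, rfl⟩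
  obtain ⟨R', h1, h2, h3⟩ := Pool.Agent.Y504.CO.Gnr.hBA
    {F : DiffM n N r // FlowHyp (n := n) ψ F} t N (fun F => Per F.1) (fun F => CR F.1) (by
      intro F z hz _ O hO hzO U hU hFU
      rw [ht] at hU
      obtain ⟨U', hU', rfl⟩ := hU
      obtain ⟨H, hHU, hH, W, hW, hHW, hWp⟩ := F.2.step hr hact hfree hz hO hzO hU' hFU
      refine ⟨⟨H, hH⟩, hHU, Subtype.val ⁻¹' W, ?_, hHW, fun H' hH' => hWp _ hH'⟩
      rw [ht]
      exact ⟨W, hW, rfl⟩)
  have h4 : ∀ j, ∃ R : Set (DiffM n N r), IsOpen[strongTop n N r] R ∧ Subtype.val ⁻¹' R = R' j := by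
    intro j
    have h5 := h1 j
    rw [ht] at h5
    exact h5
  choose R hR hRR using h4
  refine ⟨R, hR, fun j F hF U hU hFU => ?_, fun F hF hFR => ?_⟩
  · have h5 := h2 j
    have h6 : IsOpen[t] (Subtype.val ⁻¹' U : Set {F : DiffM n N r // FlowHyp (n := n) ψ F}) := by
      rw [ht]
      exact ⟨U, hU, rfl⟩
    obtain ⟨G, hGU, hGR⟩ := (@Dense.inter_open_nonempty _ t _ h5 _ h6 ⟨⟨F, hF⟩, hFU⟩)
    rw [← hRR] at hGR
    exact ⟨G.1, hGU, hGR, G.2⟩
  · have h5 : CR F ⊆ closure (Per F) := by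
      refine h3 ⟨F, hF⟩ fun j => ?_
      rw [← hRR]
      exact hFR j
    have h6 : closure (Per F) ⊆ CR F := by
      rw [(isClosed_CR F.continuous).closure_subset_iff]
      rintro p ⟨k', hk', hp⟩
      exact omega_CR F.continuous (per_mem_omega hk' hp)
    exact ⟨Subset.antisymm h5 h6, Subset.antisymm
      (fun x hx => h5 (omega_CR F.continuous hx)) (closure_per_sub F)⟩

end Pool.Agent.Helper16.OL
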